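import Pool.Agent.Lib.MP_3e612f_nt.NF.Base

/-! Arithmetic progressions near the integers (paper, Part V: V0). -/

set_option autoImplicit false

namespace Pool.Agent.Lib.MP_3e612f_nt.NF

open Finset
open Pool.Agent.Lib.MP_3e612f_nt.MR (mu ex)

/-- a set of natural numbers `j` with all `c + jφ` within `ε` of a fixed number -/
theorem ap_fiber (φ ε c z : ℝ) (hφ : 0 < φ) (hε : 0 ≤ ε) (F : Finset ℕ) (hF : ∀ j ∈ F, |c + j * φ - z| ≤ ε) : (F.card : ℝ) ≤ 2 * ε / φ + 1 := by
  rcases F.eq_empty_or_nonempty with h | h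
  · subst h
    simp only [card_empty, Nat.cast_zero]
    positivity
  · have h1 : F ⊆ Finset.Icc (F.min' h) (F.max' h) := by
      intro j hj
      exact Finset.mem_Icc.2 ⟨F.min'_le j hj, F.le_max' j hj⟩
    have h2 := Finset.card_le_card h1
    rw [Nat.card_Icc] at h2
    have h3 : F.min' h ≤ F.max' h := F.min'_le _ (F.max'_mem h)
    have h4 : (F.card : ℝ) ≤ (F.max' h : ℝ) - F.min' h + 1 := by
      have h5 : F.card + F.min' h ≤ F.max' h + 1 := by omega
      have h6 : ((F.card + F.min' h : ℕ) : ℝ) ≤ ((F.max' h + 1 : ℕ) : ℝ) := by exact_mod_cast h5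
      push_cast at h6
      linarith
    have h7 := hF _ (F.max'_mem h)
    have h8 := hF _ (F.min'_mem h)
    rw [abs_le] at h7 h8
    have h9 : ((F.max' h : ℝ) - F.min' h) * φ ≤ 2 * ε := by nlinarith [h7.1, h7.2, h8.1, h8.2]
    have h10 : (F.max' h : ℝ) - F.min' h ≤ 2 * ε / φ := by
      rw [le_div_iff₀ hφ]
      exact h9
    linarith

/-- V0. An arithmetic progression of step `φ > 0` near the integers. For `j < J` the numbers `c + jφ` lie in `[c, c + Jφ]`, so at most `Jφ + 2ε + 2` integers are within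
`ε` of one of them, and for each integer there are at most `2ε/φ + 1` such `j` (consecutive integers `j` in an interval of length `2ε/φ`). -/
theorem ap_count (φ ε c : ℝ) (J : ℕ) (hφ : 0 < φ) (hε : 0 ≤ ε) :
    ((((range J).filter (fun j : ℕ => dZ (c + j * φ) ≤ ε)).card : ℕ) : ℝ) ≤ (J * φ + 2 * ε + 2) * (2 * ε / φ + 1) := by
  classical
  set S := (range J).filter (fun j : ℕ => dZ (c + j * φ) ≤ ε) with hS
  set T := Finset.Icc ⌈c - ε⌉ ⌊c + J * φ + ε⌋ with hT
  have h1 : ∀ j ∈ S, round (c + (j : ℝ) * φ) ∈ T := by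
    intro j hj
    rw [hS, Finset.mem_filter, Finset.mem_range] at hj
    obtain ⟨hj1, hj2⟩ := hj
    unfold dZ at hj2
    rw [abs_le] at hj2
    have hj3 : (j : ℝ) * φ ≤ J * φ := by
      have : (j : ℝ) ≤ J := by exact_mod_cast hj1.le
      exact mul_le_mul_of_nonneg_right this hφ.le
    have hj4 : 0 ≤ (j : ℝ) * φ := by positivity
    rw [hT, Finset.mem_Icc, Int.ceil_le, Int.le_floor]
    constructor <;> linarith [hj2.1, hj2.2]
  have h2 := Finset.card_eq_sum_card_fiberwise h1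
  have h3 : (S.card : ℝ) ≤ ∑ z ∈ T, (2 * ε / φ + 1) := by
    rw [h2]
    push_cast
    apply Finset.sum_le_sum
    intro z _
    apply ap_fiber φ ε c z hφ hε
    intro j hj
    rw [Finset.mem_filter, hS, Finset.mem_filter] at hj
    obtain ⟨⟨_, hj2⟩, hj3⟩ := hj
    unfold dZ at hj2
    rw [← hj3]
    exact hj2
  rw [Finset.sum_const, nsmul_eq_mul] at h3
  refine h3.trans ?_
  apply mul_le_mul_of_nonneg_right _ (by positivity)
  rw [hT, Int.card_Icc]
  have h4 : ((⌊c + J * φ + ε⌋ + 1 - ⌈c - ε⌉).toNat : ℝ) = ((((⌊c + J * φ + ε⌋ + 1 - ⌈c - ε⌉).toNat : ℤ)) : ℝ) := by push_cast; rfl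
  have h5 := Int.floor_le (c + J * φ + ε)
  have h6 := Int.le_ceil (c - ε)
  have h7 : 0 ≤ (J : ℝ) * φ := by positivity
  rw [h4, Int.toNat_eq_max]
  rcases le_total (⌊c + J * φ + ε⌋ + 1 - ⌈c - ε⌉) 0 with h | h
  · rw [max_eq_right h]
    push_cast
    linarith
  · rw [max_eq_left h]
    push_cast
    linarith

end Pool.Agent.Lib.MP_3e612f_nt.NF
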