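import Pool.Agent.Lib.MP_3e612f_nt.NF.Defs

/-! Elementary facts about `dZ` and `ex`. -/

set_option autoImplicit false

namespace Pool.Agent.Lib.MP_3e612f_nt.NF

open Finset
open Pool.Agent.Lib.MP_3e612f_nt.MR (mu ex)

theorem dZ_nonneg (x : ℝ) : 0 ≤ dZ x := abs_nonneg _

theorem dZ_le_half (x : ℝ) : dZ x ≤ 1 / 2 := abs_sub_round x

theorem dZ_le_sub_int (x : ℝ) (z : ℤ) : dZ x ≤ |x - z| := round_le x z

theorem dZ_le_abs (x : ℝ) : dZ x ≤ |x| := by simpa using dZ_le_sub_int x 0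

theorem exists_int (x : ℝ) : ∃ z : ℤ, |x - z| = dZ x := ⟨round x, rfl⟩

theorem dZ_add_int (x : ℝ) (z : ℤ) : dZ (x + z) = dZ x := by
  unfold dZ
  rw [round_add_intCast]
  push_cast
  ring_nf

theorem dZ_int (z : ℤ) : dZ z = 0 := by simp [dZ]

theorem dZ_neg (x : ℝ) : dZ (-x) = dZ x := by
  apply le_antisymm
  · obtain ⟨z, hz⟩ := exists_int x
    rw [← hz]
    refine (dZ_le_sub_int (-x) (-z)).trans (le_of_eq ?_)
    push_cast
    rw [← abs_neg]
    ring_nf
  · obtain ⟨z, hz⟩ := exists_int (-x)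
    rw [← hz]
    refine (dZ_le_sub_int x (-z)).trans (le_of_eq ?_)
    push_cast
    rw [← abs_neg]
    ring_nf

theorem dZ_add_le (x y : ℝ) : dZ (x + y) ≤ dZ x + dZ y := by
  obtain ⟨z, hz⟩ := exists_int x
  obtain ⟨w, hw⟩ := exists_int y
  rw [← hz, ← hw]
  refine (dZ_le_sub_int (x + y) (z + w)).trans ?_
  push_cast
  have := abs_add_le (x - z) (y - w)
  refine le_trans (le_of_eq ?_) this
  ring_nf

theorem dZ_sub_le (x y : ℝ) : dZ (x - y) ≤ dZ x + dZ y := by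
  rw [sub_eq_add_neg, ← dZ_neg y]
  exact dZ_add_le _ _

theorem dZ_int_mul_le (n : ℤ) (x : ℝ) : dZ (n * x) ≤ |(n : ℝ)| * dZ x := by
  obtain ⟨z, hz⟩ := exists_int x
  rw [← hz, ← abs_mul]
  refine (dZ_le_sub_int _ (n * z)).trans (le_of_eq ?_)
  push_cast
  ring_nf

theorem dZ_nat_mul_le (n : ℕ) (x : ℝ) : dZ (n * x) ≤ n * dZ x := by
  have := dZ_int_mul_le n x
  simpa using this

theorem dZ_eq_zero_iff (x : ℝ) : dZ x = 0 ↔ ∃ z : ℤ, x = z := by
  constructor
  · intro h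
    obtain ⟨z, hz⟩ := exists_int x
    rw [h, abs_eq_zero, sub_eq_zero] at hz
    exact ⟨z, hz⟩
  · rintro ⟨z, rfl⟩
    exact dZ_int z

theorem norm_ex (x : ℝ) : ‖ex x‖ = 1 := by
  unfold ex
  exact Complex.norm_exp_ofReal_mul_I _

theorem ex_add (x y : ℝ) : ex (x + y) = ex x * ex y := by
  unfold ex
  rw [← Complex.exp_add]
  congr 1
  push_cast
  ring

theorem ex_zero : ex 0 = 1 := by simp [ex]

theorem ex_int (z : ℤ) : ex z = 1 := by
  unfold ex
  rw [Complex.exp_eq_one_iff]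
  exact ⟨z, by push_cast; ring⟩

theorem ex_add_int (x : ℝ) (z : ℤ) : ex (x + z) = ex x := by rw [ex_add, ex_int, mul_one]

theorem ex_neg (x : ℝ) : ex (-x) = (starRingEnd ℂ) (ex x) := by
  unfold ex
  rw [← Complex.exp_conj]
  congr 1
  rw [map_mul, Complex.conj_ofReal, Complex.conj_I]
  push_cast
  ring

theorem ex_sub (x y : ℝ) : ex (x - y) = ex x * (starRingEnd ℂ) (ex y) := by
  rw [sub_eq_add_neg, ex_add, ex_neg]

theorem ex_nat_mul (n : ℕ) (x : ℝ) : ex (n * x) = ex x ^ n := by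
  unfold ex
  rw [← Complex.exp_nat_mul]
  congr 1
  push_cast
  ring

theorem norm_ex_sub_one (x : ℝ) : ‖ex x - 1‖ = 2 * |Real.sin (Real.pi * x)| := by
  unfold ex
  have h := Complex.norm_exp_I_mul_ofReal_sub_one (2 * Real.pi * x)
  rw [mul_comm Complex.I] at h
  rw [h, Real.norm_eq_abs, abs_mul, abs_of_pos (by norm_num : (0:ℝ) < 2)]
  ring_nf

theorem norm_ex_sub_one_eq (x : ℝ) : ‖ex x - 1‖ = 2 * Real.sin (Real.pi * dZ x) := by
  obtain ⟨z, hz⟩ := exists_int x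
  have h1 : ex x = ex (x - z) := by
    have := ex_add_int (x - z) z
    rw [sub_add_cancel] at this
    exact this
  rw [h1, norm_ex_sub_one]
  have h2 : |Real.sin (Real.pi * (x - z))| = Real.sin (Real.pi * dZ x) := by
    have h3 : Real.sin (Real.pi * |x - z|) = |Real.sin (Real.pi * (x - z))| := by
      rcases le_total 0 (x - z) with h | h
      · rw [abs_of_nonneg h, abs_of_nonneg]
        apply Real.sin_nonneg_of_nonneg_of_le_pi (by positivity)
        have := dZ_le_half x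
        rw [← hz, abs_of_nonneg h] at this
        nlinarith [Real.pi_pos]
      · rw [abs_of_nonpos h, mul_neg, Real.sin_neg, abs_of_nonpos]
        rw [← neg_nonneg, ← Real.sin_neg, ← mul_neg]
        apply Real.sin_nonneg_of_nonneg_of_le_pi
        · have : 0 ≤ -(x - z) := by linarith
          positivity
        have := dZ_le_half x
        rw [← hz, abs_of_nonpos h] at this
        nlinarith [Real.pi_pos]
    rw [← h3, hz]
  rw [h2]

theorem four_dZ_le (x : ℝ) : 4 * dZ x ≤ ‖ex x - 1‖ := by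
  rw [norm_ex_sub_one_eq]
  have h1 := dZ_nonneg x
  have h2 := dZ_le_half x
  have h3 := Real.mul_le_sin (x := Real.pi * dZ x) (by positivity) (by nlinarith [Real.pi_pos])
  have h4 : 2 / Real.pi * (Real.pi * dZ x) = 2 * dZ x := by
    field_simp
  rw [h4] at h3
  linarith

theorem norm_ex_sub_one_le (x : ℝ) : ‖ex x - 1‖ ≤ 7 * dZ x := by
  rw [norm_ex_sub_one_eq]
  have h1 := dZ_nonneg x
  have h3 := Real.sin_le (x := Real.pi * dZ x) (by positivity)
  nlinarith [Real.pi_lt_d2]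

theorem norm_ex_sub_ex_le (x y : ℝ) : ‖ex x - ex y‖ ≤ 7 * |x - y| := by
  have h1 : ex x - ex y = ex y * (ex (x - y) - 1) := by
    rw [mul_sub, ← ex_add]
    ring_nf
  rw [h1, norm_mul, norm_ex, one_mul]
  refine (norm_ex_sub_one_le _).trans ?_
  have := dZ_le_abs (x - y)
  linarith

theorem norm_ex_sub_ex_le' (x y : ℝ) : ‖ex x - ex y‖ ≤ 7 * dZ (x - y) := by
  have h1 : ex x - ex y = ex y * (ex (x - y) - 1) := by
    rw [mul_sub, ← ex_add]
    ring_nf
  rw [h1, norm_mul, norm_ex, one_mul]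
  exact norm_ex_sub_one_le _

/-- geometric sums -/
theorem geom_le (θ c : ℝ) (J : ℕ) : ‖∑ j ∈ range J, ex (j * θ + c)‖ * (2 * dZ θ) ≤ 1 := by
  have h1 : (∑ j ∈ range J, ex (j * θ + c)) * (ex θ - 1) = ex c * (ex (J * θ) - 1) := by
    have h2 : ∀ j ∈ range J, ex (j * θ + c) = ex c * ex θ ^ j := by
      intro j _
      rw [ex_add, ex_nat_mul, mul_comm]
    rw [sum_congr rfl h2, ← mul_sum, mul_assoc, geom_sum_mul, ex_nat_mul]
  have h2 : ‖∑ j ∈ range J, ex (j * θ + c)‖ * ‖ex θ - 1‖ ≤ 2 := by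
    rw [← norm_mul, h1, norm_mul, norm_ex, one_mul]
    refine (norm_sub_le _ _).trans ?_
    rw [norm_ex, norm_one]
    norm_num
  have h3 := four_dZ_le θ
  have h4 : 0 ≤ ‖∑ j ∈ range J, ex (j * θ + c)‖ := norm_nonneg _
  nlinarith [mul_le_mul_of_nonneg_left h3 h4]

theorem dot_add {ι : Type} [Fintype ι] (m : ι → ℤ) (x y : ι → ℝ) : dot m (x + y) = dot m x + dot m y := by
  unfold dot
  rw [← sum_add_distrib]
  exact sum_congr rfl fun i _ => by simp [mul_add]

theorem dot_smul {ι : Type} [Fintype ι] (m : ι → ℤ) (r : ℝ) (x : ι → ℝ) : dot m (r • x) = r * dot m x := by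
  unfold dot
  rw [mul_sum]
  exact sum_congr rfl fun i _ => by simp; ring

theorem dot_neg {ι : Type} [Fintype ι] (m : ι → ℤ) (x : ι → ℝ) : dot m (-x) = -dot m x := by
  unfold dot
  rw [← sum_neg_distrib]
  exact sum_congr rfl fun i _ => by simp

theorem dot_neg_left {ι : Type} [Fintype ι] (m : ι → ℤ) (x : ι → ℝ) : dot (-m) x = -dot m x := by
  unfold dot
  rw [← sum_neg_distrib]
  exact sum_congr rfl fun i _ => by simp

theorem dot_sumElim {ι κ : Type} [Fintype ι] [Fintype κ] (m : ι ⊕ κ → ℤ) (x : ι → ℝ) (y : κ → ℝ) :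
    dot m (Sum.elim x y) = dot (fun i => m (Sum.inl i)) x + dot (fun i => m (Sum.inr i)) y := by
  unfold dot
  rw [Fintype.sum_sum_type]
  simp

theorem Fr_closed (T : Set ℝ) : IsClosed (Fr T) := isClosed_closure

theorem Fr_add_int (T : Set ℝ) {x : ℝ} (hx : x ∈ Fr T) (z : ℤ) : x + z ∈ Fr T := by
  unfold Fr at *
  have h1 : Continuous fun y : ℝ => y + z := by fun_prop
  have h2 : Set.MapsTo (fun y : ℝ => y + z) {x : ℝ | ∃ y ∈ T, ∃ z : ℤ, x = y + z} {x : ℝ | ∃ y ∈ T, ∃ z : ℤ, x = y + z} := by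
    rintro y ⟨t, ht, w, rfl⟩
    exact ⟨t, ht, w + z, by push_cast; ring⟩
  exact h2.closure h1 hx

theorem mem_Fr {T : Set ℝ} {x : ℝ} (hx : x ∈ T) : x ∈ Fr T := subset_closure ⟨x, hx, 0, by simp⟩

end Pool.Agent.Lib.MP_3e612f_nt.NF
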