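import Pool.Agent.Lib.MP_3e612f_nt.MR.KT

/-! Definitions for the theorem on null and small frequency sets (paper: store file `h4_NF_paper.md`). `mu` (Moebius function, real valued) and
`ex x = exp (2 π i x)` are those of `MR/Defs.lean` and `MR/KT.lean`. -/

set_option autoImplicit false

namespace Pool.Agent.Lib.MP_3e612f_nt.NF

open Finset

/-- distance to the nearest integer -/
noncomputable def dZ (x : ℝ) : ℝ := |x - round x|

/-- the closure of the set of all real numbers congruent modulo 1 to an element of `T` -/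
def Fr (T : Set ℝ) : Set ℝ := closure {x : ℝ | ∃ y ∈ T, ∃ z : ℤ, x = y + z}

/-- `C` has measure at most `η` in `[0,1)` and contains no rational number -/
def Small (η : ℝ) (C : Set ℝ) : Prop :=
  MeasureTheory.volume (C ∩ Set.Ico 0 1) ≤ ENNReal.ofReal η ∧ ∀ q : ℚ, (q : ℝ) ∉ C

/-- scalar product of an integral and a real vector -/
noncomputable def dot {ι : Type} [Fintype ι] (m : ι → ℤ) (x : ι → ℝ) : ℝ := ∑ i, (m i : ℝ) * x i

/-- the lower central series `LL G 0 = G`, `LL G (i+1) = [LL G i, G]` -/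
abbrev LL (G : Type) [Group G] (i : ℕ) : Subgroup G := (⊤ : Subgroup G).lowerCentralSeries i

/-- Mal'cev data of depth `k` for a subgroup `Γ` of a topological group `G`: for `i < k` homomorphisms `p i` from the `i`-th term `LL G i` of the lower central
series onto a power of `ℝ` with kernel `LL G (i+1)`, continuous on `LL G i`, with a continuous section `e i`, mapping `Γ ∩ LL G i` onto the integral vectors.
(Mal'cev: every lattice `Γ` in a simply connected nilpotent Lie group has such data of every depth.) -/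
structure Mal (G : Type) [Group G] [TopologicalSpace G] (Γ : Subgroup G) (k : ℕ) where
  I : ℕ → Type
  fin : ∀ i, Fintype (I i)
  p : ∀ i, G → I i → ℝ
  e : ∀ i, (I i → ℝ) → G
  p_cont : ∀ i < k, ContinuousOn (p i) (LL G i : Set G)
  p_mul : ∀ i < k, ∀ x ∈ LL G i, ∀ y ∈ LL G i, p i (x * y) = p i x + p i y
  p_ker : ∀ i < k, ∀ x ∈ LL G i, (p i x = 0 ↔ x ∈ LL G (i + 1))
  e_cont : ∀ i < k, Continuous (e i)
  e_mem : ∀ i < k, ∀ t, e i t ∈ LL G i
  p_e : ∀ i < k, ∀ t, p i (e i t) = t
  p_int : ∀ i < k, ∀ x ∈ Γ, x ∈ LL G i → ∀ j, ∃ z : ℤ, p i x j = z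
  int_p : ∀ i < k, ∀ z : I i → ℤ, ∃ γ ∈ Γ, γ ∈ LL G i ∧ ∀ j, p i γ j = z j

attribute [instance] Mal.fin

end Pool.Agent.Lib.MP_3e612f_nt.NF
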