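import Pool.Agent.Lib.MP_3e612f_nt.NF.Base

/-! The differenced polynomial (paper, Part V: W). -/

set_option autoImplicit false

namespace Pool.Agent.Lib.MP_3e612f_nt.NF

open Finset
open Pool.Agent.Lib.MP_3e612f_nt.MR (mu ex)

/-- The differenced polynomial `Q(X + h) - Q(X)` of a polynomial of degree at most `t + 1`: degree at most `t`, `t`-th coefficient `(t+1) h q_{t+1}`. -/
theorem diff_poly (t : ℕ) (Q : Polynomial ℝ) (hQ : Q.natDegree ≤ t + 1) (h : ℕ) :
    ∃ R : Polynomial ℝ, R.natDegree ≤ t ∧ (∀ x : ℝ, R.eval x = Q.eval (x + h) - Q.eval x) ∧ R.coeff t = (t + 1) * h * Q.coeff (t + 1) := by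
  refine ⟨Polynomial.taylor (h : ℝ) Q - Q, ?_, ?_, ?_⟩
  · rw [Polynomial.natDegree_le_iff_coeff_eq_zero]
    intro n hn
    rw [Polynomial.coeff_sub, sub_eq_zero]
    rcases Nat.lt_or_ge (t + 1) n with h1 | h1
    · rw [Polynomial.coeff_eq_zero_of_natDegree_lt (lt_of_le_of_lt hQ h1),
        Polynomial.coeff_eq_zero_of_natDegree_lt (lt_of_le_of_lt ((Polynomial.natDegree_taylor Q (h : ℝ)).le.trans hQ) h1)]
    · have h2 : n = t + 1 := by omega
      subst h2
      rw [Polynomial.taylor_coeff]
      have h3 : (Polynomial.hasseDeriv (t + 1) Q).natDegree ≤ 0 := by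
        refine (Polynomial.natDegree_hasseDeriv_le Q (t + 1)).trans ?_
        omega
      rw [Polynomial.eq_C_of_natDegree_le_zero h3, Polynomial.eval_C, Polynomial.hasseDeriv_coeff]
      simp
  · intro x
    rw [Polynomial.eval_sub, Polynomial.taylor_eval, add_comm]
  · rw [Polynomial.coeff_sub, Polynomial.taylor_coeff]
    have h3 : (Polynomial.hasseDeriv t Q).natDegree ≤ 1 := by
      refine (Polynomial.natDegree_hasseDeriv_le Q t).trans ?_
      omega
    rw [Polynomial.eq_X_add_C_of_natDegree_le_one h3, Polynomial.hasseDeriv_coeff, Polynomial.hasseDeriv_coeff]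
    simp only [Polynomial.eval_add, Polynomial.eval_mul, Polynomial.eval_C, Polynomial.eval_X]
    have h4 : ((1 + t).choose t : ℝ) = t + 1 := by
      rw [add_comm 1 t, Nat.choose_succ_self_right]
      push_cast
      ring
    rw [h4, Nat.zero_add, Nat.choose_self, add_comm 1 t]
    push_cast
    ring

end Pool.Agent.Lib.MP_3e612f_nt.NF
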