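import Pool.Agent.Lib.MP_3e612f_nt.NF.WeylStep

/-! The inverse theorem for Weyl sums (paper, Part V: W). -/

set_option autoImplicit false

namespace Pool.Agent.Lib.MP_3e612f_nt.NF

open Finset
open Pool.Agent.Lib.MP_3e612f_nt.MR (mu ex)

/-- W. Induction from `weyl_one` (`t = 1`: `K ≤ K ^ 2`, `k = 1`) with `weyl_step`. -/
theorem weyl (t : ℕ) (ht : 1 ≤ t) : ∃ A : ℕ, WeylAt t A := by
  induction t, ht using Nat.le_induction with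
  | base =>
    refine ⟨1, ?_⟩
    intro K hK N hN Q hQ h
    rw [pow_one] at hN
    have hN1 : 1 ≤ N := by
      have : (1 : ℝ) ≤ N := by linarith
      exact_mod_cast this
    refine ⟨1, le_refl 1, ?_, ?_⟩
    · rw [pow_one]
      push_cast
      linarith
    · have := weyl_one K hK N hN1 Q hQ h
      simpa using this
  | succ t ht ih =>
    obtain ⟨A, hA⟩ := ih
    exact weyl_step t A ht hA

/-- W without powers: `weyl` with `max 2 κ⁻¹`; for `N < (κ⁻¹)^A` take `k = 1` and `K ≥ N^t` (`dZ ≤ 1/2`). -/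
theorem weyl' (t : ℕ) (ht : 1 ≤ t) (κ : ℝ) (hκ : 0 < κ) : ∃ K : ℕ, 1 ≤ K ∧ ∀ N : ℕ, 1 ≤ N → ∀ Q : Polynomial ℝ, Q.natDegree ≤ t →
    κ * N ≤ ‖∑ n ∈ range N, ex (Q.eval (n : ℝ))‖ → ∃ k : ℕ, 1 ≤ k ∧ k ≤ K ∧ dZ (k * Q.coeff t) ≤ K / (N : ℝ) ^ t := by
  obtain ⟨A, hA⟩ := weyl t ht
  set K₀ : ℝ := max 2 κ⁻¹ with hK₀
  have hK₀2 : 2 ≤ K₀ := le_max_left _ _
  have hK₀κ : κ⁻¹ ≤ K₀ := le_max_right _ _
  have hB1 : 1 ≤ K₀ ^ A := one_le_pow₀ (by linarith)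
  obtain ⟨M, hM⟩ := exists_nat_ge (K₀ ^ A)
  have hM1 : (1 : ℝ) ≤ M := hB1.trans hM
  have hM1' : 1 ≤ M := by exact_mod_cast hM1
  have hle : (M : ℝ) ≤ (M : ℝ) ^ (t + 1) := by
    calc (M : ℝ) = (M : ℝ) ^ 1 := (pow_one _).symm
      _ ≤ (M : ℝ) ^ (t + 1) := pow_le_pow_right₀ hM1 (by omega)
  refine ⟨M ^ (t + 1), Nat.one_le_pow _ _ hM1', ?_⟩
  intro N hN Q hQ h
  have hN0 : (0 : ℝ) < N := by exact_mod_cast hN
  rcases le_or_gt (K₀ ^ A) (N : ℝ) with h1 | h1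
  · have h2 : (N : ℝ) ≤ K₀ * ‖∑ n ∈ range N, ex (Q.eval (n : ℝ))‖ := by
      have h3 : (N : ℝ) = κ⁻¹ * (κ * N) := by field_simp
      rw [h3]
      calc κ⁻¹ * (κ * N) ≤ κ⁻¹ * ‖∑ n ∈ range N, ex (Q.eval (n : ℝ))‖ := mul_le_mul_of_nonneg_left h (by positivity)
        _ ≤ K₀ * ‖∑ n ∈ range N, ex (Q.eval (n : ℝ))‖ := mul_le_mul_of_nonneg_right hK₀κ (norm_nonneg _)
    obtain ⟨k, hk1, hk2, hk3⟩ := hA K₀ hK₀2 N h1 Q hQ h2
    refine ⟨k, hk1, ?_, ?_⟩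
    · have : (k : ℝ) ≤ (M : ℝ) ^ (t + 1) := (hk2.trans hM).trans hle
      exact_mod_cast this
    · refine hk3.trans ?_
      push_cast
      exact div_le_div_of_nonneg_right (hM.trans hle) (by positivity)
  · refine ⟨1, le_refl 1, Nat.one_le_pow _ _ hM1', ?_⟩
    have h2 := dZ_le_half (((1 : ℕ) : ℝ) * Q.coeff t)
    refine h2.trans ?_
    rw [le_div_iff₀ (by positivity)]
    have h3 : (N : ℝ) ^ t ≤ (M : ℝ) ^ t := pow_le_pow_left₀ hN0.le (h1.le.trans hM) t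
    have h4 : (M : ℝ) ^ t ≤ (M : ℝ) ^ (t + 1) := pow_le_pow_right₀ hM1 (by omega)
    have h5 : (0 : ℝ) ≤ (N : ℝ) ^ t := by positivity
    push_cast
    linarith

end Pool.Agent.Lib.MP_3e612f_nt.NF
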