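import Pool.Agent.Lib.MP_3e612f_nt.NF.ApCount

/-! Vinogradov's lemma (paper, Part V: V1). -/

set_option autoImplicit false

namespace Pool.Agent.Lib.MP_3e612f_nt.NF

open Finset
open Pool.Agent.Lib.MP_3e612f_nt.MR (mu ex)

/-- Two elements of a set of positive density at a bounded distance. -/
theorem vino_gap (δ : ℝ) (N : ℕ) (hδ : 0 < δ) (hN : 2 / δ ≤ N) (S : Finset ℕ) (hS : ∀ n ∈ S, n < N)
    (h : δ * N ≤ (S.card : ℝ)) : ∃ m ∈ S, ∃ n ∈ S, m < n ∧ ((n - m : ℕ) : ℝ) ≤ 2 / δ := by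
  have hN0 : (0 : ℝ) < N := lt_of_lt_of_le (by positivity) hN
  obtain ⟨L, hL1, hL2⟩ : ∃ L : ℕ, (L : ℝ) ≤ 2 / δ ∧ 2 / δ < L + 1 :=
    ⟨⌊2 / δ⌋₊, Nat.floor_le (by positivity), Nat.lt_floor_add_one _⟩
  have hdN : 2 ≤ δ * N := by
    rw [div_le_iff₀ hδ] at hN
    linarith
  have hcard : (range (N / (L + 1) + 1)).card < S.card := by
    rw [card_range]
    have h1 : ((N / (L + 1) : ℕ) : ℝ) ≤ (N : ℝ) / ((L + 1 : ℕ) : ℝ) := Nat.cast_div_le
    have hL0 : (0 : ℝ) < ((L + 1 : ℕ) : ℝ) := by positivity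
    have h2 : (N : ℝ) / ((L + 1 : ℕ) : ℝ) < δ * N / 2 := by
      rw [div_lt_iff₀ hL0]
      push_cast
      rw [div_lt_iff₀ hδ] at hL2
      nlinarith
    have h3 : ((N / (L + 1) + 1 : ℕ) : ℝ) < (S.card : ℝ) := by
      push_cast
      push_cast at h1 h2
      linarith
    exact_mod_cast h3
  obtain ⟨x, hx, y, hy, hxy, hf⟩ := exists_ne_map_eq_of_card_lt_of_maps_to hcard
    (f := fun n => n / (L + 1)) (by
      intro n hn
      have h1 := Nat.div_le_div_right (c := L + 1) (hS n hn).le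
      simp only [coe_range, Set.mem_Iio]
      omega)
  have key : ∀ a b : ℕ, a < b → a / (L + 1) = b / (L + 1) → ((b - a : ℕ) : ℝ) ≤ 2 / δ := by
    intro a b hab he
    have h1 := Nat.div_add_mod a (L + 1)
    have h2 := Nat.div_add_mod b (L + 1)
    have h3 := Nat.mod_lt b (Nat.succ_pos L)
    rw [he] at h1
    have h4 : b - a ≤ L := by
      rw [Nat.succ_eq_add_one] at h3
      omega
    have h5 : ((b - a : ℕ) : ℝ) ≤ (L : ℝ) := by exact_mod_cast h4
    exact h5.trans hL1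
  rcases Nat.lt_or_gt_of_ne hxy with h1 | h1
  · exact ⟨x, hx, y, hy, h1, key x y h1 hf⟩
  · exact ⟨y, hy, x, hx, h1, key y x h1 hf.symm⟩

/-- A class modulo `k`. -/
theorem vino_class (k : ℕ) (hk : 0 < k) (S : Finset ℕ) (x : ℝ) (h : x ≤ (S.card : ℝ)) :
    ∃ r < k, x / k ≤ ((S.filter fun n => n % k = r).card : ℝ) := by
  by_contra hcon
  push Not at hcon
  have hk0 : (0 : ℝ) < k := by exact_mod_cast hk
  have h1 : S.card = ∑ r ∈ range k, (S.filter fun n => n % k = r).card :=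
    card_eq_sum_card_fiberwise fun n _ => by
      simp only [coe_range, Set.mem_Iio]
      exact Nat.mod_lt n hk
  have h2 : (S.card : ℝ) < x := by
    rw [h1]
    push_cast
    have h3 : ∑ r ∈ range k, (((S.filter fun n => n % k = r).card : ℕ) : ℝ) <
        ∑ _r ∈ range k, x / k := by
      apply sum_lt_sum_of_nonempty (nonempty_range_iff.2 hk.ne')
      intro r hr
      exact hcon r (mem_range.1 hr)
    rw [sum_const, card_range, nsmul_eq_mul, mul_div_cancel₀ _ hk0.ne'] at h3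
    exact h3
  linarith

/-- V1. At least `δN/2` gaps between consecutive elements have total length `≤ N`, so one of them is `k ≤ 2/δ`, and `φ := dZ (kθ) ≤ 2ε ≤ δ/8`. If `φ = 0` we are done. Some class
modulo `k` contains at least `δN/k` elements `n = r + k m`, `m < M ≤ N/k + 1`; `nθ - c = (rθ - c) + m kθ ≡ c' ± m φ`. By `ap_count`:
`δN/k ≤ (Mφ + 2ε + 2)(2ε/φ + 1) = 2εM + Mφ + 4ε²/φ + 2ε + 4ε/φ + 2 ≤ (δ/4)(N/k + 1) + 3 + 5ε/φ`. If `δN/k ≥ 9` this gives `φ ≤ 14 ε k/(δN) ≤ 28 ε/(δ²N)`; otherwise `N < 18/δ²` and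
`φ ≤ 2ε ≤ 36 ε/(δ²N)`. -/
theorem vino (δ ε θ c : ℝ) (N : ℕ) (hδ : 0 < δ) (hδ1 : δ ≤ 1) (hε : 0 ≤ ε) (hεδ : ε ≤ δ / 16) (hN : 2 / δ ≤ N)
    (h : δ * N ≤ ((((range N).filter (fun n : ℕ => dZ (n * θ - c) ≤ ε)).card : ℕ) : ℝ)) :
    ∃ k : ℕ, 1 ≤ k ∧ (k : ℝ) ≤ 2 / δ ∧ dZ (k * θ) ≤ 40 * ε / (δ ^ 2 * N) := by
  set S := (range N).filter (fun n : ℕ => dZ (n * θ - c) ≤ ε) with hSdef
  have hN0 : (0 : ℝ) < N := lt_of_lt_of_le (by positivity) hN
  obtain ⟨m, hm, n, hn, hmn, hk2⟩ := vino_gap δ N hδ hN S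
    (fun n hn => mem_range.1 (mem_filter.1 hn).1) h
  obtain ⟨k, hk⟩ : ∃ k, k = n - m := ⟨_, rfl⟩
  rw [← hk] at hk2
  have hk1 : 0 < k := by omega
  have hk0 : (0 : ℝ) < k := by exact_mod_cast hk1
  have hnm : (n : ℝ) = m + k := by
    have h1 : n = m + k := by omega
    rw [h1]
    push_cast
    ring
  have hphi : dZ (k * θ) ≤ 2 * ε := by
    have h1 : (k : ℝ) * θ = (n * θ - c) - (m * θ - c) := by
      rw [hnm]
      ring
    rw [h1]
    have h2 := dZ_sub_le ((n : ℝ) * θ - c) (m * θ - c)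
    have h3 := (mem_filter.1 hn).2
    have h4 := (mem_filter.1 hm).2
    linarith
  refine ⟨k, hk1, hk2, ?_⟩
  set φ := dZ (k * θ) with hφdef
  have hφ0 : 0 ≤ φ := dZ_nonneg _
  rcases hφ0.eq_or_lt with h0 | hφ
  · rw [← h0]
    positivity
  have hεpos : 0 < ε := by linarith
  obtain ⟨r, hr, hcl⟩ := vino_class k hk1 S (δ * N) h
  -- the progression
  obtain ⟨c', hc'⟩ : ∃ c' : ℝ, ∀ j : ℕ, dZ (((k * j + r : ℕ) : ℝ) * θ - c) = dZ (c' + j * φ) := by
    obtain ⟨z, hz⟩ := exists_int (k * θ)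
    rw [← hφdef] at hz
    rcases (abs_eq hφ0).1 hz with h1 | h1
    · refine ⟨r * θ - c, fun j => ?_⟩
      have h2 : ((k * j + r : ℕ) : ℝ) * θ - c = (r * θ - c + j * φ) + ((j * z : ℤ) : ℝ) := by
        push_cast
        linear_combination (j : ℝ) * h1
      rw [h2, dZ_add_int]
    · refine ⟨-(r * θ - c), fun j => ?_⟩
      have h2 : ((k * j + r : ℕ) : ℝ) * θ - c = -(-(r * θ - c) + j * φ) + ((j * z : ℤ) : ℝ) := by
        push_cast
        linear_combination (j : ℝ) * h1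
      rw [h2, dZ_add_int, dZ_neg]
  have hcount : (((S.filter fun n => n % k = r).card : ℕ) : ℝ) ≤
      (((N / k + 1 : ℕ) : ℝ) * φ + 2 * ε + 2) * (2 * ε / φ + 1) := by
    refine le_trans ?_ (ap_count φ ε c' (N / k + 1) hφ hε)
    have h1 : (S.filter fun n => n % k = r).card ≤
        ((range (N / k + 1)).filter (fun j : ℕ => dZ (c' + j * φ) ≤ ε)).card := by
      apply card_le_card_of_injOn (fun n => n / k)
      · intro a ha
        rw [mem_coe, mem_filter] at ha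
        obtain ⟨ha1, ha2⟩ := ha
        obtain ⟨ha3, ha4⟩ := mem_filter.1 ha1
        simp only [coe_filter, mem_range, Set.mem_setOf_eq]
        constructor
        · have := Nat.div_le_div_right (c := k) (mem_range.1 ha3).le
          omega
        · rw [← hc', ← ha2, Nat.div_add_mod]
          exact ha4
      · intro a ha b hb hab
        rw [mem_coe, mem_filter] at ha hb
        rw [← Nat.div_add_mod a k, ← Nat.div_add_mod b k, ha.2, hb.2]
        simp only at hab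
        rw [hab]
    exact_mod_cast h1
  have hM : ((N / k + 1 : ℕ) : ℝ) ≤ (N : ℝ) / k + 1 := by
    push_cast
    have := @Nat.cast_div_le ℝ _ _ _ N k
    linarith
  obtain ⟨x, hx⟩ : ∃ x : ℝ, x = (N : ℝ) / k := ⟨_, rfl⟩
  have hx0 : 0 < x := by
    rw [hx]
    positivity
  have hcl' : δ * N / k = δ * x := by
    rw [hx]
    ring
  rw [hcl'] at hcl
  rw [← hx] at hM
  have h1 : δ * x ≤ ((x + 1) * φ + 2 * ε + 2) * (2 * ε / φ + 1) := by
    refine (hcl.trans hcount).trans ?_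
    apply mul_le_mul_of_nonneg_right
    · have := mul_le_mul_of_nonneg_right hM hφ.le
      linarith
    · positivity
  have h2 : ((x + 1) * φ + 2 * ε + 2) * (2 * ε / φ + 1) =
      (x + 1) * (2 * ε + φ) + (4 * ε ^ 2 + 4 * ε) / φ + 2 * ε + 2 := by
    field_simp
    ring
  rw [h2] at h1
  have hε1 : ε ≤ 1 / 16 := by linarith
  have h3 : (x + 1) * (2 * ε + φ) ≤ (x + 1) * (δ / 4) :=
    mul_le_mul_of_nonneg_left (by linarith) (by linarith)
  have h4 : (4 * ε ^ 2 + 4 * ε) / φ ≤ 5 * ε / φ := by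
    apply div_le_div_of_nonneg_right _ hφ.le
    nlinarith
  have h5 : 3 / 4 * (δ * x) ≤ 3 + 5 * ε / φ := by
    nlinarith
  have hd2 : 0 < δ ^ 2 * N := by positivity
  rw [le_div_iff₀ hd2]
  have hkδ : k * δ ≤ 2 := by
    rwa [le_div_iff₀ hδ] at hk2
  have hNx : (N : ℝ) = x * k := by
    rw [hx]
    field_simp
  rcases le_or_gt 9 (δ * x) with h9 | h9
  · have h6 : 5 / 12 * (δ * x) ≤ 5 * ε / φ := by linarith
    rw [le_div_iff₀ hφ] at h6
    have h7 : φ * (δ ^ 2 * N) = (k * δ) * (δ * x * φ) := by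
      rw [hNx]
      ring
    rw [h7]
    have h8 : 0 ≤ δ * x * φ := by positivity
    have h10 : δ * x * φ ≤ 12 * ε := by linarith
    nlinarith
  · have h6 : δ ^ 2 * N = (k * δ) * (δ * x) := by
      rw [hNx]
      ring
    rw [h6]
    have h7 : (k * δ) * (δ * x) ≤ 18 := by
      have h8 : 0 ≤ k * δ := by positivity
      nlinarith
    have h8 : 0 ≤ (k * δ) * (δ * x) := by positivity
    calc φ * (k * δ * (δ * x)) ≤ (2 * ε) * (k * δ * (δ * x)) :=
          mul_le_mul_of_nonneg_right hphi h8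
      _ ≤ (2 * ε) * 18 := mul_le_mul_of_nonneg_left h7 (by positivity)
      _ ≤ 40 * ε := by linarith

end Pool.Agent.Lib.MP_3e612f_nt.NF
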