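import Pool.Agent.Lib.MP_3e612f_nt.NF.Base

/-! Pigeonhole with densities. -/

set_option autoImplicit false

namespace Pool.Agent.Lib.MP_3e612f_nt.NF

open Finset
open Pool.Agent.Lib.MP_3e612f_nt.MR (mu ex)

open scoped Classical in
/-- If every `l` of a set `L` has a label in the finite set `U` (nonempty) then one label is used by at least `|L|/|U|` of the `l`. -/
theorem pig {α β : Type} (L : Finset α) (U : Finset β) (R : α → β → Prop) (h : ∀ l ∈ L, ∃ u ∈ U, R l u) (hU : U.Nonempty) :
    ∃ u ∈ U, (L.card : ℝ) / U.card ≤ ((L.filter (fun l => R l u)).card : ℝ) := by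
  by_contra hcon
  push Not at hcon
  have hUc : (0 : ℝ) < U.card := by exact_mod_cast hU.card_pos
  have h1 : ∑ u ∈ U, ((L.filter (fun l => R l u)).card : ℝ) < ∑ _u ∈ U, (L.card : ℝ) / U.card :=
    Finset.sum_lt_sum_of_nonempty hU hcon
  rw [Finset.sum_const, nsmul_eq_mul, mul_div_cancel₀ _ hUc.ne'] at h1
  have h2 : L.card ≤ ∑ u ∈ U, (L.filter (fun l => R l u)).card := by
    have h3 : L ⊆ U.biUnion (fun u => L.filter (fun l => R l u)) := by
      intro l hl
      obtain ⟨u, hu, hlu⟩ := h l hl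
      exact Finset.mem_biUnion.2 ⟨u, hu, Finset.mem_filter.2 ⟨hl, hlu⟩⟩
    exact (Finset.card_le_card h3).trans Finset.card_biUnion_le
  have h4 : (L.card : ℝ) ≤ ∑ u ∈ U, ((L.filter (fun l => R l u)).card : ℝ) := by exact_mod_cast h2
  exact absurd h4 (not_le.2 h1)

/-- the integral vectors with entries at most `B` in absolute value form a finite set with `(2B+1)^{|ι|}` elements -/
theorem box_finset (ι : Type) [Fintype ι] (B : ℕ) : ∃ U : Finset (ι → ℤ), U.Nonempty ∧ U.card = (2 * B + 1) ^ Fintype.card ι ∧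
    ∀ m : ι → ℤ, m ∈ U ↔ ∀ i, |m i| ≤ B := by
  classical
  refine ⟨Fintype.piFinset (fun _ : ι => Finset.Icc (-(B : ℤ)) B), ⟨fun _ => 0, ?_⟩, ?_, ?_⟩
  · rw [Fintype.mem_piFinset]
    intro i
    rw [Finset.mem_Icc]
    constructor
    · simp
    · simp
  · rw [Fintype.card_piFinset, Finset.prod_const, Int.card_Icc, Finset.card_univ]
    congr 1
    omega
  · intro m
    rw [Fintype.mem_piFinset]
    refine forall_congr' fun i => ?_
    rw [Finset.mem_Icc, abs_le]

end Pool.Agent.Lib.MP_3e612f_nt.NF
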