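import Pool.Agent.Lib.MP_3e612f_nt.NF.Defs

/-!
# The Heisenberg group has Mal'cev data

A sanity check of `Mal` in `NF/Defs.lean`: the real Heisenberg group `Heis`, the subgroup `Gam` of
the integral points, `heis_mal : Nonempty (Mal Heis Gam 2)`, `heis_LL : LL Heis 2 = ⊥`.
-/

set_option autoImplicit false

namespace Pool.Agent.Lib.MP_3e612f_nt.NF

open scoped commutatorElement

/-- the real Heisenberg group -/
@[ext]
structure Heis where
  /-- first coordinate -/
  a : ℝ
  /-- second coordinate -/
  b : ℝ
  /-- central coordinate -/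
  c : ℝ

namespace Heis

instance : Mul Heis := ⟨fun x y => ⟨x.a + y.a, x.b + y.b, x.c + y.c + x.a * y.b⟩⟩

instance : One Heis := ⟨⟨0, 0, 0⟩⟩

instance : Inv Heis := ⟨fun x => ⟨-x.a, -x.b, -x.c + x.a * x.b⟩⟩

theorem mul_a (x y : Heis) : (x * y).a = x.a + y.a := rfl

theorem mul_b (x y : Heis) : (x * y).b = x.b + y.b := rfl

theorem mul_c (x y : Heis) : (x * y).c = x.c + y.c + x.a * y.b := rfl

theorem one_a : (1 : Heis).a = 0 := rfl

theorem one_b : (1 : Heis).b = 0 := rfl

theorem one_c : (1 : Heis).c = 0 := rfl

theorem inv_a (x : Heis) : (x⁻¹).a = -x.a := rfl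

theorem inv_b (x : Heis) : (x⁻¹).b = -x.b := rfl

theorem inv_c (x : Heis) : (x⁻¹).c = -x.c + x.a * x.b := rfl

instance : Group Heis :=
  Group.ofLeftAxioms
    (by
      intro x y z
      ext
      · simp only [mul_a]
        ring
      · simp only [mul_b]
        ring
      · simp only [mul_c, mul_a, mul_b]
        ring)
    (by
      intro x
      ext
      · simp only [mul_a, one_a]
        ring
      · simp only [mul_b, one_b]
        ring
      · simp only [mul_c, one_c, one_a]
        ring)
    (by
      intro x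
      ext
      · simp only [mul_a, inv_a, one_a]
        ring
      · simp only [mul_b, inv_b, one_b]
        ring
      · simp only [mul_c, inv_c, inv_a, one_c]
        ring)

/-- the coordinates -/
def toProd (x : Heis) : ℝ × ℝ × ℝ := (x.a, x.b, x.c)

instance : TopologicalSpace Heis := TopologicalSpace.induced toProd inferInstance

theorem continuous_toProd : Continuous toProd := continuous_induced_dom

theorem continuous_a : Continuous Heis.a := continuous_fst.comp continuous_toProd

theorem continuous_b : Continuous Heis.b :=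
  (continuous_fst.comp continuous_snd).comp continuous_toProd

theorem continuous_c : Continuous Heis.c :=
  (continuous_snd.comp continuous_snd).comp continuous_toProd

/-- a map to `Heis` with continuous coordinates is continuous -/
theorem continuous_mk {X : Type} [TopologicalSpace X] {f g h : X → ℝ} (hf : Continuous f)
    (hg : Continuous g) (hh : Continuous h) : Continuous fun x => (⟨f x, g x, h x⟩ : Heis) :=
  continuous_induced_rng.2 (hf.prodMk (hg.prodMk hh))

instance : IsTopologicalGroup Heis where
  continuous_mul := by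
    have h1 : Continuous fun q : Heis × Heis => q.1.a := continuous_a.comp continuous_fst
    have h2 : Continuous fun q : Heis × Heis => q.2.a := continuous_a.comp continuous_snd
    have h3 : Continuous fun q : Heis × Heis => q.1.b := continuous_b.comp continuous_fst
    have h4 : Continuous fun q : Heis × Heis => q.2.b := continuous_b.comp continuous_snd
    have h5 : Continuous fun q : Heis × Heis => q.1.c := continuous_c.comp continuous_fst
    have h6 : Continuous fun q : Heis × Heis => q.2.c := continuous_c.comp continuous_snd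
    exact continuous_mk (h1.add h2) (h3.add h4) ((h5.add h6).add (h1.mul h4))
  continuous_inv := continuous_mk continuous_a.neg continuous_b.neg
    (continuous_c.neg.add (continuous_a.mul continuous_b))

/-- a commutator -/
theorem comm_eq (x y : Heis) : ⁅x, y⁆ = ⟨0, 0, x.a * y.b - y.a * x.b⟩ := by
  rw [commutatorElement_def]
  ext
  · simp only [mul_a, inv_a]
    ring
  · simp only [mul_b, inv_b]
    ring
  · simp only [mul_c, mul_a, inv_a, inv_b, inv_c]
    ring

theorem mem_LL_one (x : Heis) : x ∈ LL Heis 1 ↔ x.a = 0 ∧ x.b = 0 := by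
  have h0 : LL Heis 1 = ⁅(⊤ : Subgroup Heis), (⊤ : Subgroup Heis)⁆ := by
    show (⊤ : Subgroup Heis).lowerCentralSeries 1 = _
    rw [Subgroup.lowerCentralSeries_succ, Subgroup.lowerCentralSeries_zero]
  rw [h0]
  constructor
  · intro hx
    have h1 : ⁅(⊤ : Subgroup Heis), (⊤ : Subgroup Heis)⁆ ≤
        { carrier := {z : Heis | z.a = 0 ∧ z.b = 0}
          mul_mem' := by
            rintro y z ⟨h2, h3⟩ ⟨h4, h5⟩
            exact ⟨by rw [mul_a, h2, h4, add_zero], by rw [mul_b, h3, h5, add_zero]⟩
          one_mem' := ⟨rfl, rfl⟩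
          inv_mem' := by
            rintro y ⟨h2, h3⟩
            exact ⟨by rw [inv_a, h2, neg_zero], by rw [inv_b, h3, neg_zero]⟩ } := by
      rw [Subgroup.commutator_le]
      intro y _ z _
      rw [comm_eq]
      exact ⟨rfl, rfl⟩
    exact h1 hx
  · rintro ⟨h1, h2⟩
    have h3 : x = ⁅(⟨1, 0, 0⟩ : Heis), (⟨0, x.c, 0⟩ : Heis)⁆ := by
      rw [comm_eq]
      ext
      · exact h1
      · exact h2
      · show x.c = 1 * x.c - 0 * 0
        ring
    rw [h3]
    exact Subgroup.commutator_mem_commutator (Subgroup.mem_top _) (Subgroup.mem_top _)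

end Heis

/-- The Heisenberg group is nilpotent of class 2. -/
theorem heis_LL : LL Heis 2 = ⊥ := by
  show (⊤ : Subgroup Heis).lowerCentralSeries 2 = _
  rw [Subgroup.lowerCentralSeries_succ, Subgroup.commutator_eq_bot_iff_le_centralizer]
  intro x hx y _
  obtain ⟨h1, h2⟩ := (Heis.mem_LL_one x).1 hx
  show y * x = x * y
  ext
  · rw [Heis.mul_a, Heis.mul_a, add_comm]
  · rw [Heis.mul_b, Heis.mul_b, add_comm]
  · rw [Heis.mul_c, Heis.mul_c, h1, h2]
    ring

/-- the integral points of the Heisenberg group -/
def Gam : Subgroup Heis where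
  carrier := {x | (∃ z : ℤ, x.a = z) ∧ (∃ z : ℤ, x.b = z) ∧ ∃ z : ℤ, x.c = z}
  mul_mem' := by
    rintro x y ⟨⟨l, hl⟩, ⟨m, hm⟩, ⟨n, hn⟩⟩ ⟨⟨l', hl'⟩, ⟨m', hm'⟩, ⟨n', hn'⟩⟩
    refine ⟨⟨l + l', ?_⟩, ⟨m + m', ?_⟩, ⟨n + n' + l * m', ?_⟩⟩
    · rw [Heis.mul_a, hl, hl']
      push_cast
      ring
    · rw [Heis.mul_b, hm, hm']
      push_cast
      ring
    · rw [Heis.mul_c, hn, hn', hl, hm']
      push_cast
      ring
  one_mem' := ⟨⟨0, by rw [Heis.one_a, Int.cast_zero]⟩, ⟨0, by rw [Heis.one_b, Int.cast_zero]⟩,
    ⟨0, by rw [Heis.one_c, Int.cast_zero]⟩⟩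
  inv_mem' := by
    rintro x ⟨⟨l, hl⟩, ⟨m, hm⟩, ⟨n, hn⟩⟩
    refine ⟨⟨-l, ?_⟩, ⟨-m, ?_⟩, ⟨-n + l * m, ?_⟩⟩
    · rw [Heis.inv_a, hl]
      push_cast
      ring
    · rw [Heis.inv_b, hm]
      push_cast
      ring
    · rw [Heis.inv_c, hn, hl, hm]
      push_cast
      ring

/-- the index types of the Mal'cev data -/
def HI : ℕ → Type
  | 0 => Bool
  | _ + 1 => Unit

/-- `Heis` and `Gam` have Mal'cev data of depth 2. -/
theorem heis_mal : Nonempty (Mal Heis Gam 2) := by
  refine ⟨{
    I := HI
    fin := fun i => match i with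
      | 0 => (inferInstance : Fintype Bool)
      | _ + 1 => (inferInstance : Fintype Unit)
    p := fun i => match i with
      | 0 => fun x (j : Bool) => Bool.rec x.b x.a j
      | _ + 1 => fun x _ => x.c
    e := fun i => match i with
      | 0 => fun t => ⟨t true, t false, 0⟩
      | _ + 1 => fun t => ⟨0, 0, t ()⟩
    p_cont := ?_
    p_mul := ?_
    p_ker := ?_
    e_cont := ?_
    e_mem := ?_
    p_e := ?_
    p_int := ?_
    int_p := ?_ }⟩
  · intro i hi
    match i, hi with
    | 0, _ =>
      refine Continuous.continuousOn (continuous_pi fun j => ?_)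
      cases j with
      | true => exact Heis.continuous_a
      | false => exact Heis.continuous_b
    | 1, _ => exact Continuous.continuousOn (continuous_pi fun j => Heis.continuous_c)
  · intro i hi x hx y hy
    match i, hi with
    | 0, _ =>
      funext j
      cases j with
      | true => rfl
      | false => rfl
    | 1, _ =>
      funext j
      show x.c + y.c + x.a * y.b = x.c + y.c
      rw [((Heis.mem_LL_one x).1 hx).1, zero_mul, add_zero]
  · intro i hi x hx
    match i, hi with
    | 0, _ =>
      show _ ↔ x ∈ LL Heis 1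
      rw [Heis.mem_LL_one]
      constructor
      · intro h
        exact ⟨congrFun h true, congrFun h false⟩
      · rintro ⟨h1, h2⟩
        funext j
        cases j with
        | true => exact h1
        | false => exact h2
    | 1, _ =>
      show _ ↔ x ∈ LL Heis 2
      rw [heis_LL, Subgroup.mem_bot]
      constructor
      · intro h
        obtain ⟨h1, h2⟩ := (Heis.mem_LL_one x).1 hx
        ext
        · exact h1
        · exact h2
        · exact congrFun h ()
      · intro h
        funext j
        show x.c = 0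
        rw [h]
        rfl
  · intro i hi
    match i, hi with
    | 0, _ =>
      exact Heis.continuous_mk (continuous_apply (A := fun _ : Bool => ℝ) true)
        (continuous_apply (A := fun _ : Bool => ℝ) false) continuous_const
    | 1, _ =>
      exact Heis.continuous_mk continuous_const continuous_const
        (continuous_apply (A := fun _ : Unit => ℝ) ())
  · intro i hi t
    match i, hi with
    | 0, _ =>
      show _ ∈ (⊤ : Subgroup Heis).lowerCentralSeries 0
      rw [Subgroup.lowerCentralSeries_zero]
      exact Subgroup.mem_top _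
    | 1, _ => exact (Heis.mem_LL_one _).2 ⟨rfl, rfl⟩
  · intro i hi t
    match i, hi with
    | 0, _ =>
      funext j
      cases j with
      | true => rfl
      | false => rfl
    | 1, _ => rfl
  · intro i hi x hx _ j
    obtain ⟨h1, h2, h3⟩ := hx
    match i, hi with
    | 0, _ =>
      cases j with
      | true => exact h1
      | false => exact h2
    | 1, _ => exact h3
  · intro i hi z
    match i, hi with
    | 0, _ =>
      refine ⟨⟨z true, z false, 0⟩, ⟨⟨z true, rfl⟩, ⟨z false, rfl⟩, ⟨0, Int.cast_zero.symm⟩⟩, ?_,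
        fun j => ?_⟩
      · show _ ∈ (⊤ : Subgroup Heis).lowerCentralSeries 0
        rw [Subgroup.lowerCentralSeries_zero]
        exact Subgroup.mem_top _
      · cases j with
        | true => rfl
        | false => rfl
    | 1, _ =>
      exact ⟨⟨0, 0, z ()⟩, ⟨⟨0, Int.cast_zero.symm⟩, ⟨0, Int.cast_zero.symm⟩, ⟨z (), rfl⟩⟩,
        (Heis.mem_LL_one _).2 ⟨rfl, rfl⟩, fun j => rfl⟩

end Pool.Agent.Lib.MP_3e612f_nt.NF
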