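import Pool.Agent.Lib.MP_3e612f_nt.NF.WeylAll

/-! The two top coefficients: localisation (paper, Part V: W2). -/

set_option autoImplicit false

namespace Pool.Agent.Lib.MP_3e612f_nt.NF

open Finset
open Pool.Agent.Lib.MP_3e612f_nt.MR (mu ex)

/-- splitting a range into blocks -/
theorem sum_blocks (f : ℕ → ℂ) (q L : ℕ) : ∑ n ∈ range (q * L), f n = ∑ j ∈ range q, ∑ i ∈ range L, f (j * L + i) := by
  induction q with
  | zero => simp
  | succ q ih => rw [Nat.succ_mul, sum_range_add, ih, sum_range_succ]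

/-- splitting a range into classes -/
theorem sum_classes (f : ℕ → ℂ) (k M : ℕ) : ∑ n ∈ range (k * M), f n = ∑ r ∈ range k, ∑ m ∈ range M, f (r + k * m) := by
  rw [mul_comm k M, sum_blocks, sum_comm]
  refine sum_congr rfl fun r _ => sum_congr rfl fun m _ => ?_
  congr 1
  ring

theorem norm_sum_split (f : ℕ → ℂ) (hf : ∀ n, ‖f n‖ ≤ 1) (q k M N : ℕ) (hN : q * (k * M) ≤ N) :
    ‖∑ n ∈ range N, f n‖ ≤ ∑ j ∈ range q, ∑ r ∈ range k, ‖∑ m ∈ range M, f (j * (k * M) + r + k * m)‖ + ((N : ℝ) - q * (k * M)) := by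
  obtain ⟨d, rfl⟩ := Nat.exists_eq_add_of_le hN
  rw [sum_range_add, sum_blocks]
  refine (norm_add_le _ _).trans ?_
  refine add_le_add ?_ ?_
  · refine (norm_sum_le _ _).trans (sum_le_sum fun j _ => ?_)
    rw [sum_classes (fun i => f (j * (k * M) + i))]
    refine (norm_sum_le _ _).trans (le_of_eq ?_)
    refine sum_congr rfl fun r _ => ?_
    simp only [add_assoc]
  · refine (norm_sum_le _ _).trans ?_
    refine (sum_le_sum fun i _ => hf _).trans (le_of_eq ?_)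
    rw [sum_const, card_range]
    push_cast
    ring

/-- replacing `q n ^ t` by a constant on a class modulo `k` of a short interval -/
theorem ex_loc (t : ℕ) (ht : 1 ≤ t) (q A N : ℝ) (k : ℕ) (hk : 1 ≤ k) (hA : 0 ≤ A) (hN : 0 < N) (hq : dZ (k * q) ≤ A / N ^ t) (y m : ℕ) (c : ℝ)
    (hm : (k : ℝ) * m ≤ c * N) (hy : (y : ℝ) + k * m ≤ N) (P : ℝ) :
    ‖ex P - ex (q * (y : ℝ) ^ t) * ex (P - q * ((y : ℝ) + k * m) ^ t)‖ ≤ 7 * (A * (t * c)) := by
  have h1 : ex P = ex (q * ((y : ℝ) + k * m) ^ t) * ex (P - q * ((y : ℝ) + k * m) ^ t) := by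
    rw [← ex_add]
    ring_nf
  have h2 : ‖ex P - ex (q * (y : ℝ) ^ t) * ex (P - q * ((y : ℝ) + k * m) ^ t)‖ = ‖ex (q * ((y : ℝ) + k * m) ^ t) - ex (q * (y : ℝ) ^ t)‖ := by
    conv_lhs => rw [h1]
    rw [← sub_mul, norm_mul, norm_ex, mul_one]
  rw [h2]
  have h3 := norm_ex_sub_ex_le' (q * ((y : ℝ) + k * m) ^ t) (q * (y : ℝ) ^ t)
  refine h3.trans (mul_le_mul_of_nonneg_left ?_ (by norm_num))
  have hc : (0 : ℝ) ≤ (k : ℝ) * m := by positivity
  have h4 : (k * m : ℕ) ∣ (y + k * m) ^ t - y ^ t := by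
    have := Nat.sub_dvd_pow_sub_pow (y + k * m) y t
    rwa [Nat.add_sub_cancel_left] at this
  obtain ⟨S, hS⟩ := h4
  have h5 : y ^ t ≤ (y + k * m) ^ t := Nat.pow_le_pow_left (Nat.le_add_right _ _) _
  have h6 : ((y : ℝ) + k * m) ^ t - (y : ℝ) ^ t = (k : ℝ) * m * S := by
    have : (((y + k * m) ^ t - y ^ t : ℕ) : ℝ) = ((k * m * S : ℕ) : ℝ) := by rw [hS]
    rw [Nat.cast_sub h5] at this
    push_cast at this
    exact this
  have h7 : q * ((y : ℝ) + k * m) ^ t - q * (y : ℝ) ^ t = ((m * S : ℕ) : ℝ) * (k * q) := by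
    rw [← mul_sub, h6]
    push_cast
    ring
  rw [h7]
  have h8 := dZ_nat_mul_le (m * S) (k * q)
  have h9 : ((y : ℝ) + k * m) ^ t - (y : ℝ) ^ t ≤ (k * m) * t * N ^ (t - 1) := by
    have h10 := abs_pow_sub_pow_le (a := (y : ℝ) + k * m) (b := (y : ℝ)) (n := t)
    rw [add_sub_cancel_left, abs_of_nonneg hc, abs_of_nonneg (by positivity : 0 ≤ (y : ℝ) + k * m), abs_of_nonneg (by positivity : 0 ≤ (y : ℝ)), max_eq_left (by linarith)] at h10
    refine (le_abs_self _).trans (h10.trans ?_)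
    have : ((y : ℝ) + k * m) ^ (t - 1) ≤ N ^ (t - 1) := pow_le_pow_left₀ (by positivity) hy _
    exact mul_le_mul_of_nonneg_left this (by positivity)
  have hk' : (1 : ℝ) ≤ k := by exact_mod_cast hk
  have hS0 : (0 : ℝ) ≤ (m : ℝ) * S := by positivity
  have h12 : ((m * S : ℕ) : ℝ) ≤ t * c * N ^ t := by
    push_cast
    have h13 : N ^ t = N * N ^ (t - 1) := by
      rw [← pow_succ']
      congr 1
      omega
    have h14 : (m : ℝ) * S ≤ k * m * S := by nlinarith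
    have h15 : (0 : ℝ) ≤ t * N ^ (t - 1) := by positivity
    calc (m : ℝ) * S ≤ k * m * S := h14
      _ ≤ (k * m) * t * N ^ (t - 1) := by rw [← h6]; exact h9
      _ = (k * m) * (t * N ^ (t - 1)) := by ring
      _ ≤ (c * N) * (t * N ^ (t - 1)) := mul_le_mul_of_nonneg_right hm h15
      _ = t * c * N ^ t := by rw [h13]; ring
  have hNt : 0 < N ^ t := by positivity
  calc dZ (((m * S : ℕ) : ℝ) * (k * q)) ≤ ((m * S : ℕ) : ℝ) * dZ (k * q) := h8
    _ ≤ ((m * S : ℕ) : ℝ) * (A / N ^ t) := mul_le_mul_of_nonneg_left hq (by positivity)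
    _ ≤ (t * c * N ^ t) * (A / N ^ t) := mul_le_mul_of_nonneg_right h12 (by positivity)
    _ = A * (t * c) := by field_simp

/-- Localisation. `q_t = b/k + θ` with `|k θ| ≤ A/N^t`. Split `[0,N)` into the classes modulo `k` and into intervals of length `⌈cN⌉`: on a piece `n = y + k m`, `m < M`, `n^t q_t ≡ y^t q_t` up to
`θ (n^t - y^t)`, which is at most `t c A`, so (choose `c`) `|∑_{m<M} e(Q(y + k m))|` differs from `|∑_{m<M} e(Q'(y + k m))|`, `Q' = Q - q_t X^t`, by at most `(κ/4) M`; the pieces with `M < c₁ N` contribute at most `(κ/4) N`.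
So there is a piece with `M ≥ c₁ N` and `|∑_{m<M} e(Q'(y + k m))| ≥ (κ/2) M`. -/
theorem weyl2_loc (t : ℕ) (ht : 1 ≤ t) (κ : ℝ) (hκ : 0 < κ) (K : ℕ) (hK : 1 ≤ K) : ∃ c₁ : ℝ, 0 < c₁ ∧ ∃ N₀ : ℕ, ∀ N : ℕ, N₀ ≤ N → ∀ Q : Polynomial ℝ,
    κ * N ≤ ‖∑ n ∈ range N, ex (Q.eval (n : ℝ))‖ → ∀ k : ℕ, 1 ≤ k → k ≤ K → dZ (k * Q.coeff t) ≤ K / (N : ℝ) ^ t →
    ∃ y M : ℕ, c₁ * N ≤ M ∧ y + k * M ≤ N + k ∧
      κ / 2 * M ≤ ‖∑ m ∈ range M, ex (Q.eval ((y : ℝ) + k * m) - Q.coeff t * ((y : ℝ) + k * m) ^ t)‖ := by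
  have ht0 : (0 : ℝ) < t := by exact_mod_cast ht
  have hK0 : (0 : ℝ) < K := by exact_mod_cast hK
  obtain ⟨c, hc0, hc1, hc2⟩ : ∃ c : ℝ, 0 < c ∧ c ≤ κ / 8 ∧ 7 * (K * (t * c)) ≤ κ / 8 := by
    refine ⟨min (κ / 8) (κ / (56 * K * t)), ?_, min_le_left _ _, ?_⟩
    · positivity
    · have h1 := min_le_right (κ / 8) (κ / (56 * K * t))
      calc 7 * (K * (t * min (κ / 8) (κ / (56 * K * t)))) ≤ 7 * (K * (t * (κ / (56 * K * t)))) := by gcongr
        _ = κ / 8 := by field_simp; norm_num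
  refine ⟨c / (2 * K), by positivity, ⌈2 * K / c⌉₊, fun N hN Q hQ k hk hkK hd => ?_⟩
  have hN1 : 2 * K / c ≤ N := Nat.ceil_le.mp hN
  have hN2 : 2 * K ≤ c * N := by
    rw [div_le_iff₀ hc0] at hN1
    linarith
  have hN0 : (0 : ℝ) < N := by
    have : 0 < c * N := by linarith
    exact pos_of_mul_pos_right this hc0.le
  have hk0 : (0 : ℝ) < k := by exact_mod_cast hk
  have hkK' : (k : ℝ) ≤ K := by exact_mod_cast hkK
  set M : ℕ := ⌊c * N / k⌋₊ with hM
  have hM1 : (M : ℝ) ≤ c * N / k := Nat.floor_le (by positivity)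
  have hM2 : c * N / k < M + 1 := Nat.lt_floor_add_one _
  have hM1' : (k : ℝ) * M ≤ c * N := by
    rw [le_div_iff₀ hk0] at hM1
    linarith
  have hcM : c / (2 * K) * N ≤ M := by
    have h1 : 1 ≤ c * N / (2 * k) := by
      rw [le_div_iff₀ (by positivity)]
      nlinarith
    have h2 : c * N / (2 * k) ≤ M := by
      have : c * N / k = 2 * (c * N / (2 * k)) := by field_simp
      rw [this] at hM2
      linarith
    refine le_trans ?_ h2
    rw [div_mul_eq_mul_div]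
    gcongr
  have hMpos : (0 : ℝ) < M := lt_of_lt_of_le (by positivity) hcM
  have hMpos' : 0 < M := by exact_mod_cast hMpos
  by_contra hcon
  push Not at hcon
  set q : ℕ := N / (k * M) with hqdef
  have hkM : 0 < k * M := Nat.mul_pos hk hMpos'
  have hq1 : q * (k * M) ≤ N := Nat.div_mul_le_self _ _
  have hq2 : N < q * (k * M) + k * M := by
    have := Nat.lt_div_mul_add (a := N) hkM
    exact this
  have hsplit := norm_sum_split (fun n => ex (Q.eval (n : ℝ))) (fun n => (norm_ex _).le) q k M N hq1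
  have hpiece : ∀ j ∈ range q, ∀ r ∈ range k, ‖∑ m ∈ range M, ex (Q.eval ((j * (k * M) + r + k * m : ℕ) : ℝ))‖ ≤ (κ / 2 + κ / 8) * M := by
    intro j hj r hr
    rw [mem_range] at hj hr
    set y : ℕ := j * (k * M) + r with hy
    have hyN : y + k * M < N + k := by
      have h1 : (j + 1) * (k * M) ≤ q * (k * M) := Nat.mul_le_mul_right _ hj
      have h2 : y + k * M < (j + 1) * (k * M) + k := by
        rw [hy, add_mul, one_mul]
        omega
      omega
    have h1 := (hcon y M hcM hyN.le).le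
    have h2 : ∀ m ∈ range M, ‖ex (Q.eval ((y + k * m : ℕ) : ℝ)) - ex (Q.coeff t * (y : ℝ) ^ t) * ex (Q.eval ((y : ℝ) + k * m) - Q.coeff t * ((y : ℝ) + k * m) ^ t)‖ ≤ κ / 8 := by
      intro m hm
      rw [mem_range] at hm
      refine le_trans ?_ hc2
      have h3 := ex_loc t ht (Q.coeff t) K N k hk hK0.le hN0 hd y m c ?_ ?_ (Q.eval ((y : ℝ) + k * m))
      · push_cast
        exact h3
      · refine le_trans ?_ hM1'
        have : (m : ℝ) ≤ M := by exact_mod_cast hm.le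
        gcongr
      · have h4 : y + k * m ≤ N := by
          have h5 : k * (m + 1) ≤ k * M := Nat.mul_le_mul_left _ hm
          rw [mul_add, mul_one] at h5
          omega
        exact_mod_cast h4
    have h3 : ‖∑ m ∈ range M, ex (Q.eval ((y + k * m : ℕ) : ℝ)) - ∑ m ∈ range M, ex (Q.coeff t * (y : ℝ) ^ t) * ex (Q.eval ((y : ℝ) + k * m) - Q.coeff t * ((y : ℝ) + k * m) ^ t)‖ ≤ κ / 8 * M := by
      rw [← sum_sub_distrib]
      refine (norm_sum_le _ _).trans ((sum_le_sum h2).trans (le_of_eq ?_))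
      rw [sum_const, card_range, nsmul_eq_mul, mul_comm]
    rw [← mul_sum] at h3
    have h4 : ‖ex (Q.coeff t * (y : ℝ) ^ t) * ∑ m ∈ range M, ex (Q.eval ((y : ℝ) + k * m) - Q.coeff t * ((y : ℝ) + k * m) ^ t)‖ ≤ κ / 2 * M := by
      rw [norm_mul, norm_ex, one_mul]
      exact h1
    have h5 := norm_sub_norm_le (∑ m ∈ range M, ex (Q.eval ((y + k * m : ℕ) : ℝ))) (ex (Q.coeff t * (y : ℝ) ^ t) * ∑ m ∈ range M, ex (Q.eval ((y : ℝ) + k * m) - Q.coeff t * ((y : ℝ) + k * m) ^ t))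
    linarith
  have hsum : ∑ j ∈ range q, ∑ r ∈ range k, ‖∑ m ∈ range M, ex (Q.eval ((j * (k * M) + r + k * m : ℕ) : ℝ))‖ ≤ (κ / 2 + κ / 8) * (q * (k * M)) := by
    refine (sum_le_sum fun j hj => sum_le_sum fun r hr => hpiece j hj r hr).trans (le_of_eq ?_)
    rw [sum_const, sum_const, card_range, card_range]
    simp only [nsmul_eq_mul]
    ring
  have hq1' : (q : ℝ) * (k * M) ≤ N := by exact_mod_cast hq1
  have hq2' : (N : ℝ) ≤ q * (k * M) + k * M := by exact_mod_cast hq2.le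
  have h6 : κ * N ≤ (κ / 2 + κ / 8) * (q * (k * M)) + ((N : ℝ) - q * (k * M)) := hQ.trans (hsplit.trans (add_le_add hsum le_rfl))
  have h7 : (κ / 2 + κ / 8) * ((q : ℝ) * (k * M)) ≤ (κ / 2 + κ / 8) * N := mul_le_mul_of_nonneg_left hq1' (by positivity)
  have h8 : (N : ℝ) - q * (k * M) ≤ κ / 8 * N := by
    have : c * N ≤ κ / 8 * N := mul_le_mul_of_nonneg_right hc1 hN0.le
    linarith
  have h9 : 0 < κ * N := by positivity
  linarith

end Pool.Agent.Lib.MP_3e612f_nt.NF
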