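import Pool.Agent.Lib.MP_3e612f_nt.NF.Base

/-! Weyl sums: differencing, degree one (paper, Part V: W). -/

set_option autoImplicit false

namespace Pool.Agent.Lib.MP_3e612f_nt.NF

open Finset
open Pool.Agent.Lib.MP_3e612f_nt.MR (mu ex)

theorem weyl_eq (f : ℕ → ℝ) (N : ℕ) :
    ‖∑ n ∈ range N, ex (f n)‖ ^ 2 =
      N + 2 * (∑ h ∈ Ico 1 N, ∑ n ∈ range (N - h), ex (f (n + h) - f n)).re := by
  induction N with
  | zero => simp
  | succ N ih =>
    have h1 : ∑ h ∈ Ico 1 (N + 1), ∑ n ∈ range (N + 1 - h), ex (f (n + h) - f n) =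
        ∑ h ∈ Ico 1 N, ∑ n ∈ range (N - h), ex (f (n + h) - f n) +
          ex (f N) * (starRingEnd ℂ) (∑ n ∈ range N, ex (f n)) := by
      have h2 : ∀ h ∈ Ico 1 (N + 1), ∑ n ∈ range (N + 1 - h), ex (f (n + h) - f n) =
          ∑ n ∈ range (N - h), ex (f (n + h) - f n) + ex (f N - f (N - h)) := by
        intro h hh
        rw [mem_Ico] at hh
        have h3 : N + 1 - h = (N - h) + 1 := by omega
        rw [h3, sum_range_succ]
        have h4 : N - h + h = N := by omega
        rw [h4]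
      rw [sum_congr rfl h2, sum_add_distrib]
      congr 1
      · rcases Nat.eq_zero_or_pos N with rfl | hN
        · simp
        · rw [sum_Ico_succ_top hN]
          simp
      · rw [sum_Ico_eq_sum_range, map_sum, mul_sum, Nat.add_sub_cancel,
          ← sum_range_reflect]
        refine sum_congr rfl fun j hj => ?_
        rw [mem_range] at hj
        have h3 : N - (1 + (N - 1 - j)) = j := by omega
        rw [h3, ex_sub]
    rw [h1, sum_range_succ, Complex.sq_norm, Complex.normSq_add, ← Complex.sq_norm,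
      ← Complex.sq_norm, ih, norm_ex, Complex.add_re]
    have h5 : ((∑ n ∈ range N, ex (f n)) * (starRingEnd ℂ) (ex (f N))).re =
        (ex (f N) * (starRingEnd ℂ) (∑ n ∈ range N, ex (f n))).re := by
      simp only [Complex.mul_re, Complex.conj_re, Complex.conj_im]
      ring
    rw [h5]
    push_cast
    ring

/-- Weyl differencing: expand the square and use `|z̄| = |z|`. -/
theorem weyl_sq (f : ℕ → ℝ) (N : ℕ) :
    ‖∑ n ∈ range N, ex (f n)‖ ^ 2 ≤ N + 2 * ∑ h ∈ Ico 1 N, ‖∑ n ∈ range (N - h), ex (f (n + h) - f n)‖ := by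
  rw [weyl_eq]
  have h1 := (Complex.re_le_norm (∑ h ∈ Ico 1 N, ∑ n ∈ range (N - h), ex (f (n + h) - f n))).trans
    (norm_sum_le _ _)
  linarith

/-- W, degree 1: `geom_le` (a polynomial of degree at most 1 is `q_1 n + q_0`). -/
theorem weyl_one (K : ℝ) (hK : 2 ≤ K) (N : ℕ) (hN : 1 ≤ N) (Q : Polynomial ℝ) (hQ : Q.natDegree ≤ 1)
    (h : (N : ℝ) ≤ K * ‖∑ n ∈ range N, ex (Q.eval (n : ℝ))‖) : dZ (Q.coeff 1) ≤ K / N := by
  have h1 : ∀ n ∈ range N, ex (Q.eval (n : ℝ)) = ex (n * Q.coeff 1 + Q.coeff 0) := by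
    intro n _
    congr 1
    rw [Polynomial.eval_eq_sum_range' (Nat.lt_succ_of_le hQ), sum_range_succ, sum_range_one]
    ring
  rw [sum_congr rfl h1] at h
  have h2 := geom_le (Q.coeff 1) (Q.coeff 0) N
  have h3 := dZ_nonneg (Q.coeff 1)
  have hN' : (0 : ℝ) < N := by exact_mod_cast hN
  rw [le_div_iff₀ hN']
  have h4 := mul_le_mul_of_nonneg_right h (by linarith : (0:ℝ) ≤ 2 * dZ (Q.coeff 1))
  have h5 := mul_le_mul_of_nonneg_left h2 (by linarith : (0:ℝ) ≤ K)
  nlinarith

end Pool.Agent.Lib.MP_3e612f_nt.NF
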