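import Pool.Agent.Lib.MP_3e612f_nt.NF.Weyl2Loc

/-! The inverse theorem for Weyl sums: the two top coefficients (paper, Part V: W2). -/

set_option autoImplicit false

namespace Pool.Agent.Lib.MP_3e612f_nt.NF

open Finset
open Pool.Agent.Lib.MP_3e612f_nt.MR (mu ex)

/-- the top coefficient after a linear substitution -/
theorem coeff_comp_lin (R : Polynomial ℝ) (s : ℕ) (hR : R.natDegree ≤ s) (a b : ℝ) :
    (R.comp (Polynomial.C a * Polynomial.X + Polynomial.C b)).coeff s = R.coeff s * a ^ s := by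
  have h1 : R.comp (Polynomial.C a * Polynomial.X + Polynomial.C b) = (Polynomial.taylor b R).comp (Polynomial.C a * Polynomial.X) := by
    rw [Polynomial.taylor_apply, Polynomial.comp_assoc]
    simp
  rw [h1, Polynomial.comp_C_mul_X_coeff]
  congr 1
  rcases hR.eq_or_lt with h | h
  · rw [← h, Polynomial.coeff_taylor_natDegree]
    rfl
  · rw [Polynomial.coeff_eq_zero_of_natDegree_lt h, Polynomial.coeff_eq_zero_of_natDegree_lt]
    rwa [Polynomial.natDegree_taylor]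

theorem natDegree_comp_lin (R : Polynomial ℝ) (s : ℕ) (hR : R.natDegree ≤ s) (a b : ℝ) :
    (R.comp (Polynomial.C a * Polynomial.X + Polynomial.C b)).natDegree ≤ s := by
  refine (Polynomial.natDegree_comp_le).trans ?_
  have h2 : (Polynomial.C a * Polynomial.X + Polynomial.C b).natDegree ≤ 1 := Polynomial.natDegree_linear_le
  calc R.natDegree * (Polynomial.C a * Polynomial.X + Polynomial.C b).natDegree ≤ s * 1 := Nat.mul_le_mul hR h2
    _ = s := mul_one _

/-- removing the top term -/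
theorem natDegree_sub_top (Q : Polynomial ℝ) (t : ℕ) (ht : 1 ≤ t) (hQ : Q.natDegree ≤ t) :
    (Q - Polynomial.C (Q.coeff t) * Polynomial.X ^ t).natDegree ≤ t - 1 := by
  rw [Polynomial.natDegree_le_iff_coeff_eq_zero]
  intro n hn
  rw [Polynomial.coeff_sub, Polynomial.coeff_C_mul, Polynomial.coeff_X_pow]
  rcases (show t ≤ n by omega).eq_or_lt with h | h
  · subst h
    simp
  · rw [if_neg h.ne', Polynomial.coeff_eq_zero_of_natDegree_lt (by omega)]
    simp

/-- W2. `weyl'` in degree `t`, `weyl2_loc`, `weyl'` in degree `t - 1` for the polynomial `m ↦ Q'(y + k m)` whose `(t-1)`-st coefficient is `k^{t-1} q_{t-1}`: `k''= k' k^t`. (`N < N₀`: take `K ≥ N₀^t`.) -/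
theorem weyl2 (t : ℕ) (ht : 2 ≤ t) (κ : ℝ) (hκ : 0 < κ) : ∃ K : ℕ, 1 ≤ K ∧ ∀ N : ℕ, 1 ≤ N → ∀ Q : Polynomial ℝ, Q.natDegree ≤ t →
    κ * N ≤ ‖∑ n ∈ range N, ex (Q.eval (n : ℝ))‖ →
    ∃ k : ℕ, 1 ≤ k ∧ k ≤ K ∧ dZ (k * Q.coeff t) ≤ K / (N : ℝ) ^ t ∧ dZ (k * Q.coeff (t - 1)) ≤ K / (N : ℝ) ^ (t - 1) := by
  obtain ⟨K1, hK1, h1⟩ := weyl' t (by omega) κ hκ
  obtain ⟨c₁, hc₁, N₀, h2⟩ := weyl2_loc t (by omega) κ hκ K1 hK1
  obtain ⟨K2, hK2, h3⟩ := weyl' (t - 1) (by omega) (κ / 2) (by positivity)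
  set B : ℕ := ⌈(1 / c₁) ^ (t - 1)⌉₊ with hB
  refine ⟨K2 * K1 ^ t + K2 * K1 * B + N₀ ^ t, le_trans (Nat.mul_pos hK2 (Nat.pow_pos hK1)) (by rw [add_assoc]; exact Nat.le_add_right _ _), fun N hN Q hQ hbig => ?_⟩
  set K : ℕ := K2 * K1 ^ t + K2 * K1 * B + N₀ ^ t with hK
  have hN0 : (0 : ℝ) < N := by exact_mod_cast hN
  have hK1' : K2 * K1 ^ t ≤ K := by rw [hK, add_assoc]; exact Nat.le_add_right _ _
  have hK2' : K2 * K1 * B ≤ K := by rw [hK]; omega
  have hK3' : N₀ ^ t ≤ K := by rw [hK]; omega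
  have hKpos : 1 ≤ K := le_trans (Nat.mul_pos hK2 (Nat.pow_pos hK1)) hK1'
  rcases lt_or_ge N N₀ with hlt | hge
  · refine ⟨1, le_rfl, hKpos, ?_, ?_⟩
    · refine (dZ_le_half _).trans ?_
      rw [le_div_iff₀ (by positivity)]
      have h4 : N ^ t ≤ K := (Nat.pow_le_pow_left hlt.le t).trans hK3'
      have h5 : (N : ℝ) ^ t ≤ K := by exact_mod_cast h4
      have h6 : (0 : ℝ) < (N : ℝ) ^ t := by positivity
      linarith
    · refine (dZ_le_half _).trans ?_
      rw [le_div_iff₀ (by positivity)]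
      have h4 : N ^ (t - 1) ≤ K := (Nat.pow_le_pow_right hN (Nat.sub_le _ _)).trans ((Nat.pow_le_pow_left hlt.le t).trans hK3')
      have h5 : (N : ℝ) ^ (t - 1) ≤ K := by exact_mod_cast h4
      have h6 : (0 : ℝ) < (N : ℝ) ^ (t - 1) := by positivity
      linarith
  · obtain ⟨k, hk1, hkK, hkd⟩ := h1 N hN Q hQ hbig
    obtain ⟨y, M, hM, -, hM2⟩ := h2 N hge Q hbig k hk1 hkK hkd
    have hMpos : (0 : ℝ) < M := lt_of_lt_of_le (by positivity) hM
    have hM1 : 1 ≤ M := by exact_mod_cast hMpos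
    set R : Polynomial ℝ := Q - Polynomial.C (Q.coeff t) * Polynomial.X ^ t with hR
    have hRd : R.natDegree ≤ t - 1 := natDegree_sub_top Q t (by omega) hQ
    have hRc : R.coeff (t - 1) = Q.coeff (t - 1) := by
      rw [hR, Polynomial.coeff_sub, Polynomial.coeff_C_mul, Polynomial.coeff_X_pow, if_neg (by omega)]
      simp
    set P : Polynomial ℝ := R.comp (Polynomial.C (k : ℝ) * Polynomial.X + Polynomial.C (y : ℝ)) with hP
    have hPe : ∀ m : ℕ, P.eval (m : ℝ) = Q.eval ((y : ℝ) + k * m) - Q.coeff t * ((y : ℝ) + k * m) ^ t := by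
      intro m
      rw [hP, hR]
      simp only [Polynomial.eval_comp, Polynomial.eval_sub, Polynomial.eval_add, Polynomial.eval_mul, Polynomial.eval_C, Polynomial.eval_X, Polynomial.eval_pow]
      rw [add_comm ((k : ℝ) * m) y]
    obtain ⟨l, hl1, hlK, hld⟩ := h3 M hM1 P (natDegree_comp_lin R (t - 1) hRd _ _) (by
      simp only [hPe]
      exact hM2)
    have hPc : P.coeff (t - 1) = Q.coeff (t - 1) * (k : ℝ) ^ (t - 1) := by
      rw [hP, coeff_comp_lin R (t - 1) hRd, hRc]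
    rw [hPc] at hld
    have hkt : k ^ (t - 1) * k = k ^ t := by
      rw [← pow_succ]
      congr 1
      omega
    refine ⟨l * k ^ (t - 1) * k, ?_, ?_, ?_, ?_⟩
    · have : 0 < l * k ^ (t - 1) * k := by positivity
      exact this
    · rw [mul_assoc, hkt]
      exact (Nat.mul_le_mul hlK (Nat.pow_le_pow_left hkK _)).trans hK1'
    · have h4 : dZ (((l * k ^ (t - 1) * k : ℕ) : ℝ) * Q.coeff t) ≤ ((l * k ^ (t - 1) : ℕ) : ℝ) * dZ (k * Q.coeff t) := by
        rw [Nat.cast_mul (l * k ^ (t - 1)) k, mul_assoc]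
        exact dZ_nat_mul_le _ _
      refine h4.trans ?_
      have h5 : ((l * k ^ (t - 1) : ℕ) : ℝ) * dZ (k * Q.coeff t) ≤ ((K2 * K1 ^ (t - 1) : ℕ) : ℝ) * (K1 / (N : ℝ) ^ t) := by
        refine mul_le_mul ?_ hkd (dZ_nonneg _) (by positivity)
        exact_mod_cast Nat.mul_le_mul hlK (Nat.pow_le_pow_left hkK _)
      refine h5.trans ?_
      rw [← mul_div_assoc]
      refine div_le_div_of_nonneg_right ?_ (by positivity)
      have h6 : K2 * K1 ^ (t - 1) * K1 ≤ K := by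
        rw [mul_assoc, ← pow_succ, show t - 1 + 1 = t by omega]
        exact hK1'
      exact_mod_cast h6
    · have h4 : dZ (((l * k ^ (t - 1) * k : ℕ) : ℝ) * Q.coeff (t - 1)) ≤ (k : ℝ) * dZ (l * (Q.coeff (t - 1) * (k : ℝ) ^ (t - 1))) := by
        refine le_trans (le_of_eq ?_) (dZ_nat_mul_le k _)
        push_cast
        ring_nf
      refine h4.trans ?_
      have h5 : (k : ℝ) * dZ (l * (Q.coeff (t - 1) * (k : ℝ) ^ (t - 1))) ≤ (K1 : ℝ) * (K2 / (M : ℝ) ^ (t - 1)) := by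
        refine mul_le_mul (by exact_mod_cast hkK) hld (dZ_nonneg _) (by positivity)
      refine h5.trans ?_
      have h6 : (K2 : ℝ) / (M : ℝ) ^ (t - 1) ≤ K2 / (c₁ * N) ^ (t - 1) := by
        refine div_le_div_of_nonneg_left (by positivity) (by positivity) ?_
        exact pow_le_pow_left₀ (by positivity) hM _
      have h7 : (K2 : ℝ) / (c₁ * N) ^ (t - 1) = K2 * (1 / c₁) ^ (t - 1) / (N : ℝ) ^ (t - 1) := by
        rw [mul_pow, one_div, inv_pow]
        field_simp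
      have h8 : (1 / c₁) ^ (t - 1) ≤ (B : ℝ) := Nat.le_ceil _
      calc (K1 : ℝ) * (K2 / (M : ℝ) ^ (t - 1)) ≤ K1 * (K2 * (1 / c₁) ^ (t - 1) / (N : ℝ) ^ (t - 1)) := by
            rw [← h7]
            exact mul_le_mul_of_nonneg_left h6 (by positivity)
        _ ≤ K1 * (K2 * B / (N : ℝ) ^ (t - 1)) := by gcongr
        _ = ((K2 * K1 * B : ℕ) : ℝ) / (N : ℝ) ^ (t - 1) := by
            push_cast
            ring
        _ ≤ K / (N : ℝ) ^ (t - 1) := by
            refine div_le_div_of_nonneg_right ?_ (by positivity)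
            exact_mod_cast hK2'

end Pool.Agent.Lib.MP_3e612f_nt.NF
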