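import Pool.Agent.Lib.MP_3e612f_nt.NF.Weyl
import Pool.Agent.Lib.MP_3e612f_nt.NF.DiffPoly
import Pool.Agent.Lib.MP_3e612f_nt.NF.Vino

/-! The inverse theorem for Weyl sums: the induction step (paper, Part V: W). -/

set_option autoImplicit false

namespace Pool.Agent.Lib.MP_3e612f_nt.NF

open Finset
open Pool.Agent.Lib.MP_3e612f_nt.MR (mu ex)

/-- The statement W in degree `t` with exponent `A`. -/
def WeylAt (t A : ℕ) : Prop := ∀ K : ℝ, 2 ≤ K → ∀ N : ℕ, K ^ A ≤ N → ∀ Q : Polynomial ℝ, Q.natDegree ≤ t →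
  (N : ℝ) ≤ K * ‖∑ n ∈ range N, ex (Q.eval (n : ℝ))‖ → ∃ k : ℕ, 1 ≤ k ∧ (k : ℝ) ≤ K ^ A ∧ dZ (k * Q.coeff t) ≤ K ^ A / (N : ℝ) ^ t

/-- Averaging and pigeonhole over the differences. -/
private theorem WeylStep_avg {N : ℕ} {K K₁ : ℝ} (hK : 2 ≤ K) (hK₁ : K₁ = 8 * K ^ 2) (hN0 : 1 ≤ N)
    (hN : 2 * K ^ 2 ≤ N) {S : ℝ} {s : ℕ → ℝ} (hS0 : 0 ≤ S) (hS : (N : ℝ) ≤ K * S)
    (hsq : S ^ 2 ≤ N + 2 * ∑ h ∈ Ico 1 N, s h) (hs : ∀ h ∈ Ico 1 N, s h ≤ N) :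
    (N : ℝ) / K₁ ≤ ((Ico 1 N).filter fun h => (N : ℝ) ≤ K₁ * s h).card := by
  have hK0 : (0 : ℝ) < K := by linarith
  have hK₁0 : (0 : ℝ) < K₁ := by rw [hK₁]; positivity
  have hN' : (1 : ℝ) ≤ N := by exact_mod_cast hN0
  obtain ⟨H, hH⟩ : ∃ H, H = (Ico 1 N).filter fun h => (N : ℝ) ≤ K₁ * s h := ⟨_, rfl⟩
  rw [← hH]
  have h1 : ∑ h ∈ Ico 1 N, s h ≤ ∑ h ∈ Ico 1 N, ((if (N : ℝ) ≤ K₁ * s h then (N : ℝ) else 0) + N / K₁) := by
    refine sum_le_sum fun h hh => ?_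
    have hd : (0 : ℝ) ≤ N / K₁ := by positivity
    split_ifs with h2
    · have := hs h hh
      linarith
    · rw [zero_add, le_div_iff₀ hK₁0, mul_comm]
      exact (not_le.1 h2).le
  rw [sum_add_distrib, ← sum_filter, ← hH, sum_const, sum_const, Nat.card_Ico, nsmul_eq_mul,
    nsmul_eq_mul, Nat.cast_sub hN0, Nat.cast_one] at h1
  have h2 : (N : ℝ) ^ 2 ≤ K ^ 2 * S ^ 2 := by
    rw [← mul_pow]
    exact pow_le_pow_left₀ (by positivity) hS 2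
  have h3 : (N : ℝ) ^ 2 ≤ K ^ 2 * (N + 2 * (H.card * N + (N - 1) * (N / K₁))) := by
    refine h2.trans (mul_le_mul_of_nonneg_left (hsq.trans ?_) (by positivity))
    linarith
  have h4 : K ^ 2 * ((N - 1) * (N / K₁)) ≤ (N : ℝ) ^ 2 / 8 := by
    have e : K ^ 2 * ((N - 1) * (N / K₁)) = ((N : ℝ) - 1) * N / 8 := by
      rw [hK₁]
      field_simp
    rw [e]
    nlinarith
  have h5 : K ^ 2 * N ≤ (N : ℝ) ^ 2 / 2 := by nlinarith
  have h6 : (N : ℝ) ^ 2 / 4 ≤ 2 * K ^ 2 * H.card * N := by nlinarith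
  have h7 : (N : ℝ) / 4 ≤ 2 * K ^ 2 * H.card := by
    by_contra hcon
    push Not at hcon
    nlinarith
  rw [div_le_iff₀ hK₁0, hK₁]
  linarith

private theorem WeylStep_pig {N A : ℕ} {K₁ : ℝ} (hK₁ : 2 ≤ K₁) (H : Finset ℕ) (k : ℕ → ℕ)
    (hk : ∀ h ∈ H, 1 ≤ k h ∧ (k h : ℝ) ≤ K₁ ^ A) (hH : (N : ℝ) / K₁ ≤ H.card) :
    ∃ j : ℕ, 1 ≤ j ∧ (j : ℝ) ≤ K₁ ^ A ∧ (N : ℝ) / K₁ ^ (A + 1) ≤ (H.filter fun h => k h = j).card := by
  have hK₁0 : (0 : ℝ) < K₁ := by linarith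
  have hA : (1 : ℝ) ≤ K₁ ^ A := one_le_pow₀ (by linarith)
  have h1 : ∀ h ∈ H, k h ∈ Icc 1 ⌊K₁ ^ A⌋₊ := fun h hh =>
    mem_Icc.2 ⟨(hk h hh).1, Nat.le_floor (hk h hh).2⟩
  have h2 : (Icc 1 ⌊K₁ ^ A⌋₊).Nonempty := nonempty_Icc.2 (Nat.le_floor (by exact_mod_cast hA))
  obtain ⟨j, hj, h3⟩ := exists_le_card_fiber_of_nsmul_le_card_of_maps_to (M := ℝ)
    (b := (N : ℝ) / K₁ ^ (A + 1)) h1 h2 (by
      rw [Nat.card_Icc, Nat.add_sub_cancel, nsmul_eq_mul]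
      refine le_trans ?_ hH
      calc (⌊K₁ ^ A⌋₊ : ℝ) * (N / K₁ ^ (A + 1)) ≤ K₁ ^ A * (N / K₁ ^ (A + 1)) := by
            gcongr
            exact Nat.floor_le (by positivity)
        _ = N / K₁ := by
            rw [pow_succ]
            field_simp)
  rw [mem_Icc] at hj
  exact ⟨j, hj.1, (Nat.le_floor_iff (by positivity)).1 hj.2, h3⟩

/-- The step. From `weyl_sq`, `N ≥ K^A` and `N ≤ K |∑|`: `N²/K² ≤ N + 2 ∑_h |S_h|`, `N ≤ N²/(2K²)`, so `∑_h |S_h| ≥ N²/(4K²)` and at least `N/(8K²)` of the `h ∈ [1,N)` have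
`|S_h| ≥ N/(8K²)`; put `K₁ = 8K²`. For these `N - h ≥ |S_h| ≥ N/K₁ ≥ K₁^A`, `N - h ≤ K₁ |S_h|`: `k_h ≤ K₁^A` with `dZ (k_h (t+1) h q) ≤ K₁^A/(N-h)^t ≤ K₁^{A+t}/N^t`. Pigeonhole: one `k` for at least
`N/K₁^{A+1}/2` of the `h`. `vino` with `θ = k (t+1) q`, `c = 0`, `ε = K₁^{A+t}/N^t`, `δ = 1/(2K₁^{A+1})`: `k' ≤ 2/δ`, `dZ (k' k (t+1) q) ≤ 40 ε/(δ² N)`. Everything is at most a power of `K` (`8 ≤ K^3`, `t + 1 ≤ 2^t ≤ K^t`). (`t ≥ 1`.) -/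
theorem weyl_step (t A : ℕ) (ht : 1 ≤ t) (h : WeylAt t A) : ∃ A' : ℕ, WeylAt (t + 1) A' := by
  classical
  refine ⟨15 * A + 5 * t + 16, fun K hK N hN Q hQ hS => ?_⟩
  have hK0 : (0 : ℝ) < K := by linarith
  have hK1 : (1 : ℝ) ≤ K := by linarith
  obtain ⟨K₁, hK₁⟩ : ∃ K₁ : ℝ, K₁ = 8 * K ^ 2 := ⟨_, rfl⟩
  have hK₁2 : 2 ≤ K₁ := by
    rw [hK₁]
    nlinarith
  have hK₁0 : 0 < K₁ := by linarith
  have hp2 : ∀ m : ℕ, (2 : ℝ) ^ m ≤ K ^ m := fun m => pow_le_pow_left₀ (by norm_num) hK m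
  have hK₁5 : K₁ ≤ K ^ 5 := by
    rw [hK₁]
    have h8 := hp2 3
    calc 8 * K ^ 2 ≤ K ^ 3 * K ^ 2 := by
          have : (8 : ℝ) ≤ K ^ 3 := by linarith
          gcongr
      _ = K ^ 5 := by ring
  have hpw : ∀ m : ℕ, K₁ ^ m ≤ K ^ (5 * m) := fun m => by
    rw [pow_mul]
    exact pow_le_pow_left₀ hK₁0.le hK₁5 m
  have hmono : ∀ {a b : ℕ}, a ≤ b → K ^ a ≤ K ^ b := fun h => pow_le_pow_right₀ hK1 h
  -- lower bounds for `N`
  have hNa : 2 * K ^ 2 ≤ (N : ℝ) := by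
    refine le_trans ?_ hN
    calc 2 * K ^ 2 ≤ K ^ 1 * K ^ 2 := by
          rw [pow_one]
          gcongr
      _ = K ^ 3 := by ring
      _ ≤ _ := hmono (by omega)
  have hNb : K₁ ^ (A + 1) ≤ (N : ℝ) := (hpw _).trans ((hmono (by omega)).trans hN)
  have hNc : 16 * K₁ ^ (2 * A + t + 1) ≤ (N : ℝ) := by
    refine le_trans ?_ hN
    calc 16 * K₁ ^ (2 * A + t + 1) ≤ K ^ 4 * K ^ (5 * (2 * A + t + 1)) := by
          have h16 := hp2 4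
          have h16' : (16 : ℝ) ≤ K ^ 4 := by linarith
          exact mul_le_mul h16' (hpw _) (by positivity) (by positivity)
      _ = K ^ (4 + 5 * (2 * A + t + 1)) := by rw [pow_add]
      _ ≤ _ := hmono (by omega)
  have hNd : 2 * K₁ ^ (A + 1) ≤ (N : ℝ) := by
    refine le_trans ?_ hNc
    have : K₁ ^ (A + 1) ≤ K₁ ^ (2 * A + t + 1) := pow_le_pow_right₀ (by linarith) (by omega)
    have h0 : 0 < K₁ ^ (A + 1) := by positivity
    linarith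
  have hN1 : (1 : ℝ) ≤ N := by nlinarith
  have hN1' : 1 ≤ N := by exact_mod_cast hN1
  have hN0 : (0 : ℝ) < N := by linarith
  -- the differences
  have hH := WeylStep_avg (s := fun h => ‖∑ n ∈ range (N - h), ex (Q.eval (((n + h : ℕ) : ℝ)) - Q.eval (n : ℝ))‖)
    hK hK₁ hN1' hNa (norm_nonneg _) hS (weyl_sq (fun n => Q.eval (n : ℝ)) N) (fun h _ => by
      refine (norm_sum_le _ _).trans ?_
      simp only [norm_ex, sum_const, card_range, nsmul_eq_mul, mul_one]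
      exact_mod_cast Nat.sub_le N h)
  obtain ⟨H, hHdef⟩ : ∃ H, H = (Ico 1 N).filter fun h => (N : ℝ) ≤
      K₁ * ‖∑ n ∈ range (N - h), ex (Q.eval (((n + h : ℕ) : ℝ)) - Q.eval (n : ℝ))‖ := ⟨_, rfl⟩
  rw [← hHdef] at hH
  have hdat : ∀ h ∈ H, ∃ k : ℕ, 1 ≤ k ∧ (k : ℝ) ≤ K₁ ^ A ∧
      dZ (h * (k * (t + 1) * Q.coeff (t + 1))) ≤ K₁ ^ (A + t) / (N : ℝ) ^ t := by
    intro m hm
    rw [hHdef, mem_filter, mem_Ico] at hm
    obtain ⟨⟨hm1, hm2⟩, hm3⟩ := hm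
    obtain ⟨R, hR1, hR2, hR3⟩ := diff_poly t Q hQ m
    have e1 : ∑ n ∈ range (N - m), ex (Q.eval (((n + m : ℕ) : ℝ)) - Q.eval (n : ℝ)) =
        ∑ n ∈ range (N - m), ex (R.eval (n : ℝ)) := by
      refine sum_congr rfl fun n _ => ?_
      rw [hR2, Nat.cast_add]
    rw [e1] at hm3
    have h1 : ‖∑ n ∈ range (N - m), ex (R.eval (n : ℝ))‖ ≤ ((N - m : ℕ) : ℝ) := by
      refine (norm_sum_le _ _).trans ?_
      simp only [norm_ex, sum_const, card_range, nsmul_eq_mul, mul_one]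
      exact le_rfl
    have h2 : (N : ℝ) ≤ K₁ * ((N - m : ℕ) : ℝ) := hm3.trans (mul_le_mul_of_nonneg_left h1 hK₁0.le)
    have h3 : K₁ ^ A ≤ ((N - m : ℕ) : ℝ) := by
      rw [pow_succ] at hNb
      have h4 : K₁ ^ A * K₁ ≤ ((N - m : ℕ) : ℝ) * K₁ := by linarith
      exact le_of_mul_le_mul_right h4 hK₁0
    have h4 : ((N - m : ℕ) : ℝ) ≤ N := by exact_mod_cast Nat.sub_le N m
    obtain ⟨k, hk1, hk2, hk3⟩ := h K₁ hK₁2 (N - m) h3 R hR1 (h4.trans hm3)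
    refine ⟨k, hk1, hk2, ?_⟩
    have e2 : (m : ℝ) * (k * (t + 1) * Q.coeff (t + 1)) = k * R.coeff t := by
      rw [hR3]
      ring
    rw [e2]
    refine hk3.trans ?_
    have h5 : (0 : ℝ) < ((N - m : ℕ) : ℝ) := lt_of_lt_of_le (by positivity) h3
    rw [div_le_div_iff₀ (by positivity) (by positivity)]
    calc K₁ ^ A * (N : ℝ) ^ t ≤ K₁ ^ A * (K₁ * ((N - m : ℕ) : ℝ)) ^ t := by gcongr
      _ = K₁ ^ (A + t) * ((N - m : ℕ) : ℝ) ^ t := by rw [mul_pow, pow_add]; ring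
  choose! k hk1 hk2 hk3 using hdat
  obtain ⟨j, hj1, hj2, hj3⟩ := WeylStep_pig (A := A) hK₁2 H k (fun m hm => ⟨hk1 m hm, hk2 m hm⟩) hH
  -- Vinogradov
  have hδ0 : (0 : ℝ) < 1 / K₁ ^ (A + 1) := by positivity
  obtain ⟨k', hk'1, hk'2, hk'3⟩ := vino (1 / K₁ ^ (A + 1)) (K₁ ^ (A + t) / (N : ℝ) ^ t)
    (j * (t + 1) * Q.coeff (t + 1)) 0 N hδ0 (by
      rw [div_le_one (by positivity)]
      exact one_le_pow₀ (by linarith)) (by positivity) (by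
      rw [div_div, div_le_div_iff₀ (by positivity) (by positivity)]
      have h1 : (N : ℝ) ≤ (N : ℝ) ^ t := by
        calc (N : ℝ) = (N : ℝ) ^ 1 := (pow_one _).symm
          _ ≤ _ := pow_le_pow_right₀ hN1 ht
      calc K₁ ^ (A + t) * (K₁ ^ (A + 1) * 16) = 16 * K₁ ^ (2 * A + t + 1) := by
            rw [show 2 * A + t + 1 = (A + t) + (A + 1) by ring, pow_add K₁ (A + t)]
            ring
        _ ≤ N := hNc
        _ ≤ 1 * (N : ℝ) ^ t := by linarith) (by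
      rw [div_div_eq_mul_div, div_one]
      exact hNd) (by
      rw [one_div_mul_eq_div]
      refine hj3.trans (Nat.cast_le.2 (card_le_card fun m hm => ?_))
      rw [mem_filter] at hm
      have hm' := hm.1
      rw [hHdef, mem_filter, mem_Ico] at hm'
      rw [mem_filter, mem_range]
      refine ⟨hm'.1.2, ?_⟩
      rw [sub_zero]
      have h1 := hk3 m hm.1
      rw [hm.2] at h1
      exact h1)
  rw [div_div_eq_mul_div, div_one] at hk'2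
  refine ⟨k' * j * (t + 1), ?_, ?_, ?_⟩
  · exact Nat.mul_pos (Nat.mul_pos hk'1 hj1) (Nat.succ_pos t)
  · push_cast
    have h1 : ((t : ℝ) + 1) ≤ K ^ t := by
      refine le_trans ?_ (hp2 t)
      have h2 : t + 1 ≤ 2 ^ t := Nat.lt_two_pow_self
      exact_mod_cast h2
    have h2 : (2 : ℝ) * K₁ ^ (A + 1) ≤ K ^ (1 + 5 * (A + 1)) := by
      rw [pow_add K, pow_one K]
      exact mul_le_mul hK (hpw _) (by positivity) hK0.le
    calc (k' : ℝ) * j * (t + 1) ≤ K ^ (1 + 5 * (A + 1)) * K ^ (5 * A) * K ^ t := by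
          refine mul_le_mul (mul_le_mul (hk'2.trans h2) (hj2.trans (hpw A)) (by positivity) (by positivity))
            h1 (by positivity) (by positivity)
      _ = K ^ (1 + 5 * (A + 1) + 5 * A + t) := by rw [← pow_add, ← pow_add]
      _ ≤ _ := hmono (by omega)
  · have e : ((k' * j * (t + 1) : ℕ) : ℝ) * Q.coeff (t + 1) = k' * (j * (t + 1) * Q.coeff (t + 1)) := by
      push_cast
      ring
    rw [e]
    refine hk'3.trans ?_
    have e2 : 40 * (K₁ ^ (A + t) / (N : ℝ) ^ t) / ((1 / K₁ ^ (A + 1)) ^ 2 * N) =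
        40 * K₁ ^ (3 * A + t + 2) / (N : ℝ) ^ (t + 1) := by
      rw [show 3 * A + t + 2 = (A + t) + (A + 1) + (A + 1) by ring, pow_add K₁ (A + t + (A + 1)),
        pow_add K₁ (A + t) (A + 1), pow_succ (N : ℝ) t]
      field_simp
    rw [e2]
    gcongr
    calc 40 * K₁ ^ (3 * A + t + 2) ≤ K ^ 6 * K ^ (5 * (3 * A + t + 2)) := by
          have h64 := hp2 6
          have h64' : (40 : ℝ) ≤ K ^ 6 := by linarith
          exact mul_le_mul h64' (hpw _) (by positivity) (by positivity)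
      _ = K ^ (6 + 5 * (3 * A + t + 2)) := by rw [pow_add]
      _ ≤ _ := hmono (by omega)

end Pool.Agent.Lib.MP_3e612f_nt.NF
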